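import Mathlib
import Pool.Agent.Work.MP_a8fbd7_nt.OX.Defs
import Pool.Agent.Work.MP_a8fbd7_nt.OX.TAB.Defs

/-!
MP_a8fbd7_nt, block OX, part CELL: statements of the pieces of the cell theorems.

Every item is `theorem iNAME (h1 : StA) ... : StNAME := ...` in the file `OX/CELL/I_NAME.lean`.
Already proved (files on main): `Disc.lean` (`disc`: an integral over a compact set is at most twice the sum over a `1`-separated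
subset; `pigeon`: pigeonhole for a finite cover), `MS.lean` (`pow_ms`: mean square of the coefficients of a power), `LVh.lean`
(`lv_block`: the large value inequalities for a block in an arbitrary interval of length `T^h`), `CollE.lean` (`coll_E`: collision
inequality on a class, `cs_set`, `GS_cont`, `GS_le`, `PB_cont`).
-/

set_option autoImplicit false

open MeasureTheory Set Filter Topology

noncomputable section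

namespace Pool.Agent.Work.MP_a8fbd7_nt.OX.CELL

open Pool.Agent.Work.MP_a8fbd7_nt.OX

/-- the data of a class: blocks `T^(b i)`, gains `T^(w i)`, measure `T^tau`, total gain `W`, tolerance `s` -/
structure Cls {m : ℕ} (b w : Fin m → ℝ) (tau W s : ℝ) (Q : ℕ) : Prop where
  w0 : ∀ i, 0 ≤ w i
  Wt : W ≤ tau + s
  t1 : tau ≤ 1 + s
  triv : 2 * W ≤ tau + s ∨ r0 ≤ tau - 2 * W + 1 + s
  lv : ∀ i, ∀ k : ℕ, 1 ≤ k → k * b i ≤ 2 → LVx (b i) (w i) tau s Q k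
  co : ∀ i, ∀ j : ℕ, j * b i ≤ 1 → 2 * W - 2 * (j * w i) ≤ tau + s ∨
    r0 ≤ tau + 2 * (j * w i) - 2 * W + 1 - j * b i + s

/-- THE TABLE (helper55, `OX/TAB/Table.lean`): first part; with a definite gain below `41/100`. -/
def StTab : Prop := (∀ b1 v0 : ℝ, 0 < b1 → b1 < 1 / 2 → 0 < v0 → Table r0 b1 v0 0) ∧
  ∃ th : ℝ, 0 < th ∧ ∀ v0 : ℝ, 0 < v0 → Table r0 (41 / 100) v0 th

/-- ITEM LA (logic of StCellA; uses StTab).  Real arithmetic.  Put `v = min w i / b i`, attained at `i` (`m ≥ 1`, see below), `ν = ∑ b`.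
Then `∑ w ≥ v ν`, so `W ≥ 1 - ν/2 + v ν - s = 2v + (1/2 - v)(2 - ν) - s`.
(1) `W ≥ 19/20` contradicts `triv` and `t1` (`2W ≥ 1.9 > 1 + 2s`; `tau - 2W + 1 + s ≤ .1 + 2s < r0`).  If `m = 0`: `ν = 0`, `W ≥ 1 - s`.  If `v ≥ 1/2` then `W ≥ 1 - s`.
(2) So `v < 1/2`, `W ≥ 2v - s`, `v ≤ 12/25`, and `W ≥ 2v + κ2/50 - s ≥ 2v + κ2/100`.
(3) If `v < v0 := κ2/100`: choose `k` with `k b i ∈ [3/5, 6/5]` (`b i ≤ 51/100`); `hx`: `tau ≤ max (12v/5) (36v/5 - 1/5) + s`; with `W ≤ tau + s`: contradiction.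
(4) If `v ≥ v0` and `b i ≤ 1/2 - β0`, `β0 := κ2/1000`: Table `(1/2 - β0) v0 0` (its `s`, `Q`; an inequality with a smaller `s` implies the one with a larger `s` — the fields of `LVx` are
monotone in `s`, those with `s` in the hypothesis become weaker —), hypothesis `2 w ≤ (W + s) b`: true.
(5) If `v ≥ v0`, `b i > 1/2 - β0`: `mv` for `k = 2` (`2 b i ≤ 1 + 2κ3 ≤ 2`): `tau ≤ 4 b v + 2β0 + s ≤ (2 + 4κ3) v + 2 β0 + s`; with `W ≤ tau + s`: contradiction. -/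
def StLA : Prop := ∀ κ2 : ℝ, 0 < κ2 → κ2 ≤ 1 / 20 → ∃ κ3 : ℝ, 0 < κ3 ∧ κ3 ≤ κ2 / 10 ∧ ∃ s0 : ℝ, 0 < s0 ∧ ∃ Q : ℕ,
  ∀ (m : ℕ) (b w : Fin m → ℝ) (tau W s : ℝ), 0 < s → s ≤ s0 → (∀ i, 0 < b i ∧ b i ≤ 1 / 2 + κ3) → ∑ i, b i ≤ 2 - κ2 →
    ∑ i, w i + 1 - (∑ i, b i) / 2 - s ≤ W → Cls b w tau W s Q → False

open Classical in
/-- ITEM LB (logic of StCellB, far zone; uses StTab).  Real arithmetic.  `v = min w i / b i ≥ 1/60`, attained at `i`; `W ≥ ∑ w - s ≥ (2 - ε) v - s` (`ε = κ`); `v ≤ 1/2` because of `triv`, `t1` (`W < 19/20`).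
`th0 = min th 1/10`, (`th` from StTab, second part), `ths = th0/10`.
(1) `b i ≤ 1/2 - β0`, `β0 := ths β/10000`: Table `(1/2 - β0) (1/60) 0`: `2 w ≤ (W + s_T) b`, where `s_T` is the tolerance of the table: `2v ≤ (2-ε)v - s + s_T` if `ε + s ≤ s_T`:
so `κ`, which bounds `ε`, has to be chosen after the table (it only depends on `β`).
(2) `b i > 1/2 - β0` and some small block (`b l ≤ 41/100`) has `w l / b l ≤ (1 + ths) v`: Table `(41/100) (1/60) th`.  `(2 - th) w l ≤ (W + s_T) b l`: `(2-th)(1+ths) v ≤ (2 - ε) v - s + s_T`.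
(3) otherwise `W ≥ ∑ w - s ≥ v (∑ b) + ths v β - s ≥ (2 - ε) v + ths β/60 - s`, and `mv` for `k = 2` at `i`: `tau ≤ 4 b v + 2β0 + s ≤ (2 + 4κ) v + 2β0 + s`; with `W ≤ tau + s`: contradiction if
`ε v + 4 κ v + 2β0 + 3s < ths β/60`. -/
def StLB : Prop := ∀ β : ℝ, 0 < β → β ≤ 1 / 20 → ∃ κ : ℝ, 0 < κ ∧ κ ≤ β / 4000 ∧ ∃ s0 : ℝ, 0 < s0 ∧ ∃ Q : ℕ,
  ∀ (m : ℕ) (b w : Fin m → ℝ) (tau W s : ℝ), 0 < s → s ≤ s0 → (∀ i, 0 < b i ∧ b i ≤ 1 / 2 + κ) → 2 - κ ≤ ∑ i, b i →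
    β ≤ ∑ i ∈ Finset.univ.filter (fun i => b i ≤ 41 / 100), b i → (∀ i, b i / 60 ≤ w i) → ∑ i, w i - s ≤ W →
    Cls b w tau W s Q → False

/-- ITEM Nz (one block near its maximum; uses `Disc.disc`, `MS.pow_ms`, `ZF.StHM`).  `M = ⌊2N⌋`, `PB a N t ^ k = Dp (M^k) c t`, `∑|c|² ≤ (M (1 + log M)^(k-1))^k` (`pow_ms` with `k-1`, `lo = N/2`).
`StHM` with `C0 = 4^k`, `L = (N/2)^k`: for every `1`-separated `W ⊂ E`: `∑_W |PB|^(2k) ≤ C (N^k + #W √T') N^k (log T)^K`.  As `|PB| ≥ N^(49/50)` on `E`: `#W N^(49k/25) ≤ C (N^k + #W √T') N^k (log T)^K`;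
`N^k ≥ T^(11/20)`: `√T' N^k (log T)^K ≤ N^(49k/25)/(2C)` (`.505 < .96*.55 = .528`), so `#W ≤ 2C N^(k/25) (log T)^K` and `#W √T' ≤ N^k` (`.505 < .96*.55`, `T` large).
So `∑_W (|PB|/N)^(2k) ≤ 2C (log T)^K`; `Disc.disc` for `H = (|PB|/N)^(2k)`.  Uniform in `k ≤ k0`: maximum over `k` (cf. `LVh.fin_thr`). -/
def StNz : Prop := ∀ k0 : ℕ, ∃ C K : ℝ, 1 ≤ C ∧ 0 ≤ K ∧ ∀ (T T' N : ℝ) (k : ℕ) (a : ℕ → ℂ) (E : Set ℝ),
  C ≤ T → 1 ≤ T' → T' ≤ T ^ (101 / 100 : ℝ) → 1 ≤ k → k ≤ k0 → IsBlk a N → 0 < N → T ^ (11 / 20 : ℝ) ≤ N ^ k → N ^ k ≤ T ^ (21 / 20 : ℝ) →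
  IsCompact E → E ⊆ Icc T' (2 * T') → (∀ t ∈ E, N ^ (49 / 50 : ℝ) ≤ ‖PB a N t‖) →
  ∫ t in E, (‖PB a N t‖ / N) ^ (2 * k) ≤ C * Real.log T ^ K

open Classical in
/-- ITEM Pw (pointwise inequality).  Real arithmetic (`y i = -log (|f_i|/N_i)`).  Let `ρ = min y i / b i`, attained at `j0`; `∑ y ≥ ρ ∑ b ≥ ρ (2 - β/4000)`.
(1) `b j0 ≤ 49/100`: `j = j0`: `∑ y ≥ (2 - β/4000) y_j/b_j`, `((2 - β/4000) - 2 k_j b_j)/b_j ≥ .03/b_j ≥ .06`.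
(2) `b j0 > 49/100`, and some `l` with `b l ≤ 41/100`, `y l / b l ≤ (201/200) ρ`: `j = l`: `∑ y ≥ (2 - β/4000)(200/201) y_l/b_l ≥ 1.98 y_l/b_l`, `(1.98 - 1.96)/b_l ≥ .04`.
(3) `b j0 > 49/100`, all small `l` have `y l ≥ (201/200) ρ b l`: `∑ y ≥ ρ (2 - β/4000 + β/200) = (…) y_{j0}/b_{j0}`, `b_{j0} ≤ 1/2 + β/4000`, `(2 - β/4000 + β/200)/(1/2 + β/4000) ≥ 4 + β/200`, `j = j0`. -/
def StPw : Prop := ∀ (β : ℝ) (m : ℕ) (b y : Fin m → ℝ) (kk : Fin m → ℕ) (Λ x : ℝ), 0 < β → β ≤ 1 / 20 → 0 ≤ Λ →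
  (∀ i, 0 < b i ∧ b i ≤ 1 / 2 + β / 4000) → 2 - β / 4000 ≤ ∑ i, b i →
  β ≤ ∑ i ∈ Finset.univ.filter (fun i => b i ≤ 41 / 100), b i →
  (∀ i, b i ≤ 49 / 100 → kk i * b i ≤ 49 / 50) → (∀ i, 49 / 100 < b i → kk i = 2) → (∀ i, Λ ≤ y i) → (∃ i, y i ≤ b i * x) →
  ∃ j, y j ≤ b j * x * (201 / 200) ∧ 2 * kk j * y j + β / 200 * Λ ≤ ∑ i, y i

open Classical in
/-- ITEM NB (the near zone of StCellB; uses StNz, StPw, `Disc.pigeon`).  `b i = log N_i/log T ≥ η/2` for large `T`, `m ≤ 6/η`.  `kk i`: some `k ≥ 1` with `k b_i ∈ [11/20, 49/50]` if `b_i ≤ 49/100` (exists: `k = 2` if `b_i ≥ 11/40`,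
otherwise the interval is longer than `b_i`), `kk i = 2` otherwise; so `kk i ≤ 4/η`.  `y i = -log(|f_i|/N_i)` (if some `f_i(t) = 0` the product vanishes), `Λ = A1 log log T`, `x = (log T)/60`: StPw gives for
every `t ∈ E` a `j` with `|f_j| ≥ N_j^(1 - 201/12000) ≥ N_j^(49/50)` and `∏|f_i|/N_i ≤ (log T)^(-β A1/200) (|f_j|/N_j)^(2 kk_j)`.  Pigeonhole over `j` (`pigeon`; closed conditions), `g ≤ J`, StNz (`2 kk_j` = `2 * kk j`):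
`∫_E g ∏|f_i| ≤ m J ∏N_i (log T)^(-β A1/200) C (log T)^K`.  `A1` with `β A1/200 ≥ K + A + 1`, `T` large. -/
def StNB : Prop := ∀ β η A : ℝ, 0 < β → β ≤ 1 / 20 → 0 < η → η ≤ 1 / 20 → 0 < A → ∃ A1 C : ℝ, 0 < A1 ∧ 1 ≤ C ∧
  ∀ (T T' J : ℝ) (m : ℕ) (a : Fin m → ℕ → ℂ) (N : Fin m → ℝ) (g : ℝ → ℝ) (E : Set ℝ),
  C ≤ T → 1 ≤ T' → T' ≤ T ^ (101 / 100 : ℝ) →
  (∀ i, IsBlk (a i) (N i)) → (∀ i, T ^ η / 2 ≤ N i ∧ N i ≤ T ^ (1 / 2 + β / 4000)) →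
  T ^ (2 - β / 4000) ≤ ∏ i, N i → ∏ i, N i ≤ T ^ (3 : ℝ) →
  T ^ β ≤ ∏ i ∈ Finset.univ.filter (fun i => N i ≤ T ^ (41 / 100 : ℝ)), N i →
  (∀ i, ∀ t ∈ Icc T' (2 * T'), ‖PB (a i) (N i) t‖ ≤ N i / Real.log T ^ A1) →
  Continuous g → (∀ t, 0 ≤ g t) → (∀ t, g t ≤ J) → 0 < J →
  IsCompact E → E ⊆ Icc T' (2 * T') → (∀ t ∈ E, ∃ i, N i ^ (59 / 60 : ℝ) ≤ ‖PB (a i) (N i) t‖) →
  ∫ t in E, g t * ∏ i, ‖PB (a i) (N i) t‖ ≤ J * (∏ i, N i) / Real.log T ^ A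

end Pool.Agent.Work.MP_a8fbd7_nt.OX.CELL
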