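import Mathlib
import Pool.Agent.Work.MP_a8fbd7_nt.OX.CELL.Stmts

/-!
MP_a8fbd7_nt, block OX, part CELL: item LA (logic of cell theorem A).
-/

set_option autoImplicit false

open MeasureTheory Set Filter Topology

noncomputable section

namespace Pool.Agent.Work.MP_a8fbd7_nt.OX.CELL

open Pool.Agent.Work.MP_a8fbd7_nt.OX

/-- the large value inequalities are monotone in the tolerance -/
theorem la_LVx_mono {b w tau s s' : ℝ} {Q k : ℕ} (h : LVx b w tau s Q k) (hs : s ≤ s') : LVx b w tau s' Q k where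
  mv := by have := h.mv; linarith
  hx := by have := h.hx; linarith
  gm := by
    intro q t h1 h2 h3 h4
    have := h.gm q t h1 h2 h3 (by linarith)
    linarith
  jj := by
    intro t h1 h2 h3
    have := h.jj t h1 h2 (by linarith)
    linarith

/-- minimal relative gain -/
theorem la_exists_min {m : ℕ} (hm : 0 < m) (b w : Fin m → ℝ) (hb : ∀ i, 0 < b i) :
    ∃ i, ∀ j, w i / b i * b j ≤ w j := by
  have : Nonempty (Fin m) := ⟨⟨0, hm⟩⟩
  obtain ⟨i, hi⟩ := Finite.exists_min (fun i => w i / b i)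
  refine ⟨i, fun j => ?_⟩
  have h1 := hi j
  have h2 := hb j
  calc w i / b i * b j ≤ w j / b j * b j := mul_le_mul_of_nonneg_right h1 h2.le
    _ = w j := by field_simp

theorem iLA (hT : StTab) : StLA := by
  intro κ2 hκ hκ'
  obtain ⟨hT1, -⟩ := hT
  obtain ⟨sT, hsT, Q, hTab⟩ := hT1 (1 / 2 - κ2 / 1000) (κ2 / 100) (by linarith) (by linarith) (by linarith)
  refine ⟨κ2 / 1000, by linarith, by linarith, min sT (κ2 / 1000), lt_min hsT (by linarith), Q, ?_⟩
  intro m b w tau W s hs hs0 hb hν hW hC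
  have hs1 : s ≤ sT := le_trans hs0 (min_le_left _ _)
  have hs2 : s ≤ κ2 / 1000 := le_trans hs0 (min_le_right _ _)
  have ht1 := hC.t1
  have hWt := hC.Wt
  -- `W < 19/20`
  have hW1 : W < 19 / 20 := by
    by_contra hcon
    push Not at hcon
    rcases hC.triv with h | h
    · linarith
    · have : r0 = 97 / 500 := rfl
      rw [this] at h
      linarith
  rcases Nat.eq_zero_or_pos m with hm | hm
  · subst hm
    simp at hW
    linarith
  obtain ⟨i, hi⟩ := la_exists_min hm b w (fun i => (hb i).1)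
  have hbi := hb i
  set v := w i / b i with hv
  have hwv : w i = v * b i := by
    have := hbi.1
    rw [hv]; field_simp
  have hv0 : 0 ≤ v := div_nonneg (hC.w0 i) hbi.1.le
  have hsum : v * ∑ j, b j ≤ ∑ j, w j := by
    rw [Finset.mul_sum]
    exact Finset.sum_le_sum (fun j _ => hi j)
  have hν0 : 0 ≤ ∑ j, b j := Finset.sum_nonneg (fun j _ => (hb j).1.le)
  have hv1 : v < 1 / 2 := by
    by_contra hcon
    push Not at hcon
    nlinarith
  have hW2 : 2 * v + κ2 * (1 / 2 - v) - s ≤ W := by nlinarith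
  have hv2 : v ≤ 12 / 25 := by nlinarith
  have hW3 : 2 * v + κ2 / 50 - s ≤ W := by nlinarith
  by_cases hvs : v < κ2 / 100
  · -- case 3
    obtain ⟨k, hk1, hk2, hk3⟩ : ∃ k : ℕ, 1 ≤ k ∧ 3 / 5 ≤ k * b i ∧ k * b i ≤ 6 / 5 := by
      refine ⟨⌈3 / (5 * b i)⌉₊, ?_, ?_, ?_⟩
      · exact Nat.one_le_iff_ne_zero.mpr (Nat.ceil_pos.mpr (by have := hbi.1; positivity)).ne'
      · have h := Nat.le_ceil (3 / (5 * b i))
        have h2 := mul_le_mul_of_nonneg_right h hbi.1.le
        have h3 : 3 / (5 * b i) * b i = 3 / 5 := by have := hbi.1; field_simp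
        linarith
      · have h := (Nat.ceil_lt_add_one (show (0:ℝ) ≤ 3 / (5 * b i) by have := hbi.1; positivity)).le
        have h2 := mul_le_mul_of_nonneg_right h hbi.1.le
        have h3 : 3 / (5 * b i) * b i = 3 / 5 := by have := hbi.1; field_simp
        have := hbi.2
        nlinarith
    have hx := (hC.lv i k hk1 (by linarith)).hx
    rw [hwv] at hx
    have e1 : (k : ℝ) * (v * b i) ≤ 6 / 5 * v := by nlinarith
    have e2 : 1 + 6 * ((k : ℝ) * (v * b i)) - 2 * (k * b i) ≤ 18 / 5 * v - 1 / 5 := by nlinarith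
    rcases max_cases (2 * ((k : ℝ) * (v * b i))) (1 + 6 * ((k : ℝ) * (v * b i)) - 2 * (k * b i)) with ⟨h, _⟩ | ⟨h, _⟩
    · rw [h] at hx
      linarith
    · rw [h] at hx
      linarith
  push Not at hvs
  by_cases hbs : b i ≤ 1 / 2 - κ2 / 1000
  · -- case 4
    refine hTab (b i) (w i) tau W hbi.1 hbs ?_ ?_ ?_ (by linarith) ?_ ?_
    · rw [hwv]
      exact mul_le_mul_of_nonneg_right hvs hbi.1.le
    · rw [hwv]
      nlinarith [hbi.1]
    · rw [hwv]
      have h3 : 0 ≤ W + sT - 2 * v := by linarith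
      nlinarith [mul_nonneg h3 hbi.1.le]
    · intro k hk1 hk2
      exact la_LVx_mono (hC.lv i k hk1 hk2) hs1
    · intro j hj
      rcases hC.co i j hj with h | h
      · left; linarith
      · right; linarith
  · -- case 5
    push Not at hbs
    have hmv := (hC.lv i 2 (by norm_num) (by push_cast; linarith [hbi.2])).mv
    rw [hwv] at hmv
    push_cast at hmv
    have h1 : max (0:ℝ) (1 - 2 * b i) ≤ 2 * (κ2 / 1000) := max_le (by linarith) (by linarith)
    have h2 : v * b i ≤ v * (1 / 2) + 1 / 2 * (κ2 / 1000) := by nlinarith [hbi.2]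
    linarith

end Pool.Agent.Work.MP_a8fbd7_nt.OX.CELL
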