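import Mathlib
import Pool.Agent.Work.MP_a8fbd7_nt.OX.CELL.I_LA

/-!
MP_a8fbd7_nt, block OX, part CELL: item LB (logic of cell theorem B, far zone).
-/

set_option autoImplicit false

open MeasureTheory Set Filter Topology

noncomputable section

namespace Pool.Agent.Work.MP_a8fbd7_nt.OX.CELL

open Pool.Agent.Work.MP_a8fbd7_nt.OX

/-- monotone in the number of parameters -/
theorem lb_Q {b w tau s : ℝ} {Q Q' k : ℕ} (h : LVx b w tau s Q' k) (hQ : Q ≤ Q') : LVx b w tau s Q k :=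
  ⟨h.mv, h.hx, fun q t h1 h2 h3 h4 => h.gm q t h1 (h2.trans hQ) h3 h4, h.jj⟩

/-- monotone in both -/
theorem lb_mono {b w tau s s' : ℝ} {Q Q' k : ℕ} (h : LVx b w tau s Q' k) (hs : s ≤ s') (hQ : Q ≤ Q') : LVx b w tau s' Q k :=
  lb_Q (la_LVx_mono h hs) hQ

/-- `v < 1/2` -/
theorem lb_v {κ v s W : ℝ} (hκ : κ ≤ 1 / 100) (hs : s ≤ 1 / 100) (h : (2 - κ) * v - s ≤ W) (hW : W < 19 / 20) : v ≤ 1 / 2 := by
  by_contra hcon
  push Not at hcon
  have : (2 - κ) * (1 / 2) ≤ (2 - κ) * v := mul_le_mul_of_nonneg_left hcon.le (by linarith)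
  linarith

/-- the hypothesis of the second table -/
theorem lb_e {th u v wl bl X : ℝ} (hu : 0 ≤ u) (hu1 : 10 * u ≤ th) (hu2 : u ≤ 1 / 100) (hv : 0 ≤ v) (hwl : 0 ≤ wl) (hbl : 0 ≤ bl)
    (h : wl ≤ (1 + u) * v * bl) (hX : 2 * v ≤ X) : (2 - th) * wl ≤ X * bl := by
  have e1 : (2 - th) * wl ≤ (2 - 10 * u) * wl := mul_le_mul_of_nonneg_right (by linarith) hwl
  have e2 : (2 - 10 * u) * wl ≤ (2 - 10 * u) * ((1 + u) * v * bl) := mul_le_mul_of_nonneg_left h (by linarith)
  have e3 : (2 - 10 * u) * (1 + u) ≤ 2 := by nlinarith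
  have h5 : 0 ≤ v * bl := mul_nonneg hv hbl
  have e4 : (2 - 10 * u) * ((1 + u) * v * bl) ≤ 2 * (v * bl) := by
    calc (2 - 10 * u) * ((1 + u) * v * bl) = ((2 - 10 * u) * (1 + u)) * (v * bl) := by ring
      _ ≤ 2 * (v * bl) := mul_le_mul_of_nonneg_right e3 h5
  have e5 : 2 * v * bl ≤ X * bl := mul_le_mul_of_nonneg_right hX hbl
  linarith

open Classical in
/-- the sum of the gains in case 3 -/
theorem lb_sum {m : ℕ} {b w : Fin m → ℝ} {u v β : ℝ} (hu : 0 ≤ u) (hv : 0 ≤ v)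
    (hsm : β ≤ ∑ i ∈ Finset.univ.filter (fun i => b i ≤ 41 / 100), b i) (hi : ∀ j, v * b j ≤ w j)
    (hex : ∀ l, b l ≤ 41 / 100 → (1 + u) * v * b l < w l) : v * ∑ j, b j + u * v * β ≤ ∑ j, w j := by
  have h1 : u * v * β ≤ ∑ j, (if b j ≤ 41 / 100 then u * v * b j else 0) := by
    rw [← Finset.sum_filter, ← Finset.mul_sum]
    exact mul_le_mul_of_nonneg_left hsm (mul_nonneg hu hv)
  calc v * ∑ j, b j + u * v * β ≤ ∑ j, v * b j + ∑ j, (if b j ≤ 41 / 100 then u * v * b j else 0) := by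
        rw [Finset.mul_sum]; linarith
    _ = ∑ j, (v * b j + (if b j ≤ 41 / 100 then u * v * b j else 0)) := by rw [Finset.sum_add_distrib]
    _ ≤ ∑ j, w j := by
        refine Finset.sum_le_sum (fun j _ => ?_)
        split_ifs with h
        · have := hex j h
          calc v * b j + u * v * b j = (1 + u) * v * b j := by ring
            _ ≤ w j := this.le
        · have := hi j
          linarith

/-- the end of case 3 -/
theorem lb_end {κ v s W tau c bi S B m0 : ℝ} (hκ : 0 < κ) (hκ3 : κ ≤ c / 10000) (hs : s ≤ κ / 2) (hv0 : 0 ≤ v) (hv1 : v ≤ 1 / 2)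
    (hbi : bi ≤ 1 / 2 + κ) (hν : 2 - κ ≤ B) (hS : v * B + c / 60 ≤ S) (hW : S - s ≤ W) (hWt : W ≤ tau + s)
    (hm0 : m0 ≤ 2 * (c / 10000)) (hmv : tau ≤ 2 * (2 * (v * bi)) + m0 + s) (hc : 0 < c) : False := by
  have h2 : v * bi ≤ v * (1 / 2 + κ) := mul_le_mul_of_nonneg_left hbi hv0
  have h3 : v * κ ≤ 1 / 2 * κ := mul_le_mul_of_nonneg_right hv1 hκ.le
  have h4 : v * (2 - κ) ≤ v * B := mul_le_mul_of_nonneg_left hν hv0
  linarith

open Classical in
theorem iLB (hT : StTab) : StLB := by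
  intro β hβ hβ'
  obtain ⟨hT1, th, hth, hT2⟩ := hT
  obtain ⟨s2, hs2, Q2, hTab2⟩ := hT2 (1 / 60) (by norm_num)
  obtain ⟨u, hu⟩ : ∃ u : ℝ, u = min th (1 / 10) / 10 := ⟨_, rfl⟩
  have hu0 : 0 < u := by
    rw [hu]
    have : 0 < min th (1 / 10) := lt_min hth (by norm_num)
    linarith
  have hu1 : 10 * u ≤ th := by rw [hu]; have := min_le_left th (1 / 10); linarith
  have hu2 : u ≤ 1 / 100 := by rw [hu]; have := min_le_right th (1 / 10); linarith
  obtain ⟨c, hc⟩ : ∃ c : ℝ, c = u * β := ⟨_, rfl⟩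
  have hc0 : 0 < c := by rw [hc]; exact mul_pos hu0 hβ
  have hc1 : c ≤ β / 100 := by
    rw [hc]
    have := mul_le_mul_of_nonneg_right hu2 hβ.le
    linarith
  obtain ⟨s1, hs1, Q1, hTab1⟩ := hT1 (1 / 2 - c / 10000) (1 / 60) (by linarith) (by linarith) (by norm_num)
  obtain ⟨κ, hκ⟩ : ∃ κ : ℝ, κ = min (min s1 s2) (c / 10000) := ⟨_, rfl⟩
  have hκ0 : 0 < κ := by rw [hκ]; exact lt_min (lt_min hs1 hs2) (by linarith)
  have hκ1 : κ ≤ s1 := by rw [hκ]; exact (min_le_left _ _).trans (min_le_left _ _)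
  have hκ2 : κ ≤ s2 := by rw [hκ]; exact (min_le_left _ _).trans (min_le_right _ _)
  have hκ3 : κ ≤ c / 10000 := by rw [hκ]; exact min_le_right _ _
  clear hκ hu
  refine ⟨κ, hκ0, by linarith, κ / 2, by linarith, max Q1 Q2, ?_⟩
  intro m b w tau W s hs hs0 hb hν hsm hwb hW hC
  have ht1 := hC.t1
  have hWt := hC.Wt
  have hκ4 : κ ≤ 1 / 100 := by linarith
  -- `W < 19/20`
  have hW1 : W < 19 / 20 := by
    by_contra hcon
    push Not at hcon
    rcases hC.triv with h | h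
    · linarith
    · have : r0 = 97 / 500 := rfl
      rw [this] at h
      linarith
  rcases Nat.eq_zero_or_pos m with hm | hm
  · subst hm
    simp at hν
    linarith
  obtain ⟨i, hi⟩ := la_exists_min hm b w (fun i => (hb i).1)
  have hbi0 := (hb i).1
  have hbi1 := (hb i).2
  obtain ⟨v, hv⟩ : ∃ v : ℝ, v = w i / b i := ⟨_, rfl⟩
  rw [← hv] at hi
  have hwv : w i = v * b i := by
    rw [hv]; field_simp
  have hv0 : 1 / 60 ≤ v := by
    have h1 := hwb i
    rw [hv, le_div_iff₀ hbi0]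
    linarith
  have hv00 : 0 ≤ v := by linarith
  have hsum : v * ∑ j, b j ≤ ∑ j, w j := by
    rw [Finset.mul_sum]
    exact Finset.sum_le_sum (fun j _ => hi j)
  have hsum' : v * (2 - κ) ≤ v * ∑ j, b j := mul_le_mul_of_nonneg_left hν hv00
  have hW2 : (2 - κ) * v - s ≤ W := by linarith
  have hv1 : v ≤ 1 / 2 := lb_v hκ4 (by linarith) hW2 hW1
  have hκv : κ * v ≤ κ * (1 / 2) := mul_le_mul_of_nonneg_left hv1 hκ0.le
  have hW3 : 2 * v - κ ≤ W := by linarith
  by_cases hbs : b i ≤ 1 / 2 - c / 10000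
  · refine hTab1 (b i) (w i) tau W hbi0 hbs ?_ ?_ ?_ (by linarith) ?_ ?_
    · have := hwb i
      linarith
    · rw [hwv]
      have : v * b i ≤ 1 * b i := mul_le_mul_of_nonneg_right (by linarith) hbi0.le
      linarith
    · rw [hwv]
      have h3 : 2 * v * b i ≤ (W + s1) * b i := mul_le_mul_of_nonneg_right (by linarith) hbi0.le
      linarith
    · intro k hk1 hk2
      exact lb_mono (hC.lv i k hk1 hk2) (by linarith) (le_max_left _ _)
    · intro j hj
      rcases hC.co i j hj with h | h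
      · left; linarith
      · right; linarith
  push Not at hbs
  by_cases hex : ∃ l, b l ≤ 41 / 100 ∧ w l ≤ (1 + u) * v * b l
  · obtain ⟨l, hl1, hl2⟩ := hex
    have hbl := (hb l).1
    have hwl := hC.w0 l
    refine hTab2 (b l) (w l) tau W hbl hl1 ?_ ?_ ?_ (by linarith) ?_ ?_
    · have := hwb l
      linarith
    · refine hl2.trans ?_
      have h1 : (1 + u) * v ≤ (1 + u) * (1 / 2) := mul_le_mul_of_nonneg_left hv1 (by linarith)
      have h2 : (1 + u) * v * b l ≤ 1 * b l := mul_le_mul_of_nonneg_right (by linarith) hbl.le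
      linarith
    · exact lb_e hu0.le hu1 hu2 hv00 hwl hbl.le hl2 (by linarith)
    · intro k hk1 hk2
      exact lb_mono (hC.lv l k hk1 hk2) (by linarith) (le_max_right _ _)
    · intro j hj
      rcases hC.co l j hj with h | h
      · left; linarith
      · right; linarith
  · push Not at hex
    have hsum2 := lb_sum hu0.le hv00 hsm hi hex
    have hmv := (hC.lv i 2 (by norm_num) (by push_cast; linarith)).mv
    rw [hwv] at hmv
    push_cast at hmv
    have h1 : max (0:ℝ) (1 - 2 * b i) ≤ 2 * (c / 10000) := max_le (by linarith) (by linarith)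
    have h3 : c / 60 ≤ u * v * β := by
      have h5 : c * (1 / 60) ≤ c * v := mul_le_mul_of_nonneg_left hv0 hc0.le
      calc c / 60 = c * (1 / 60) := by ring
        _ ≤ c * v := h5
        _ = u * v * β := by rw [hc]; ring
    exact lb_end hκ0 hκ3 hs0 hv00 hv1 hbi1 hν (by linarith : v * ∑ j, b j + c / 60 ≤ ∑ j, w j) hW hWt h1 hmv hc0

end Pool.Agent.Work.MP_a8fbd7_nt.OX.CELL
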