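import Mathlib
import Pool.Agent.Work.MP_a8fbd7_nt.OX.Defs
import Pool.Agent.Work.MP_a8fbd7_nt.OX.TAB.Defs
import Pool.Agent.Work.MP_a8fbd7_nt.OX.LV.Stmts
import Pool.Agent.Work.MP_a8fbd7_nt.OX.LV.Stmts2
import Pool.Agent.Work.MP_a8fbd7_nt.OX.LV.I_Pf

/-!
MP_a8fbd7_nt, block OX, part CELL: the large value inequalities in exponent form, for a block in an arbitrary interval of
length `T^h`.
Author: helper63.
-/

set_option autoImplicit false

open MeasureTheory Set Filter Topology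

noncomputable section

namespace Pool.Agent.Work.MP_a8fbd7_nt.OX.CELL

open Pool.Agent.Work.MP_56b8f5_nt.UC (Sep Dp)
open Pool.Agent.Work.MP_a8fbd7_nt.OX

/-- Guth-Maynard menu for windows of length `T^t` in an interval of length `T^h` -/
def GMh (h : ℝ) (q : ℕ) (l g t : ℝ) : ℝ :=
  max 0 (h - t) + max (2 * g) (max (4 * t / 3 - 2 * l + 4 * g) (max (t / 2 - l + 4 * g)
    (max (t - 2 * l + 16 * g / 3) (max (t - 2 * l + 28 * g / 5) (max (3 * t / 2 - 3 * l + 7 * g)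
      (max ((q : ℝ) / (q + 1) * (t / q - l + 6 * g)) ((q : ℝ) / (q + 1) * (t - 2 * l + 6 * g))))))))

/-- Jutila menu (`LV.StJ` with `k = 3`) for windows of length `T^t` in an interval of length `T^h` -/
def JTh (h l g t : ℝ) : ℝ :=
  max 0 (h - t) + max (2 * g) (max (3 * t - 6 * l + 12 * g) (2 * t / 3 - 4 * l + 16 * g))

/-- large value inequalities for a polynomial of length `T^l` and gain `T^g` in an interval of length `T^h` -/
structure LVp (h l g tau s : ℝ) (Q : ℕ) : Prop where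
  mv : tau ≤ 2 * g + max 0 (h - l) + s
  hx : tau ≤ max (2 * g) (h + 6 * g - 2 * l) + s
  gm : ∀ (q : ℕ) (t : ℝ), 1 ≤ q → q ≤ Q → l ≤ t → t + s ≤ 2 * l → tau ≤ GMh h q l g t + s
  jj : ∀ t : ℝ, 0 ≤ t → t ≤ h → g + s ≤ l / 4 → tau ≤ JTh h l g t + s

/-- from powers of `T` to exponents -/
theorem expo {T τ K c X : ℝ} (hT : 1 < T) (h : T ^ τ ≤ K * T ^ X) (hK : K ≤ T ^ c) : τ ≤ X + c := by
  have hT0 : 0 < T := by linarith
  have h1 : T ^ τ ≤ T ^ (X + c) := by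
    rw [Real.rpow_add hT0, mul_comm (T ^ X)]
    exact h.trans (mul_le_mul_of_nonneg_right hK (Real.rpow_nonneg hT0.le _))
  exact (Real.rpow_le_rpow_left_iff hT).mp h1

theorem pw {T : ℝ} (hT : 0 ≤ T) (x : ℝ) (n : ℕ) : (T ^ x) ^ n = T ^ (x * n) := by
  rw [Real.rpow_mul hT, Real.rpow_natCast]

/-- the mean value -/
theorem lv_mv (hMv : StMv) (s B : ℝ) (hs : 0 < s) (hB : 1 ≤ B) : ∃ C : ℝ, 1 ≤ C ∧
    ∀ (F : ℝ → ℂ) (T T0 h l g τ : ℝ) (W : Finset ℝ), C ≤ T → 0 ≤ h → h ≤ 2 → 0 < l → l ≤ 2 →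
      DPc F (T ^ l) B (T ^ (s / 64)) → Lset F (T ^ (l - g)) T0 (T ^ h) W → T ^ τ ≤ W.card →
      τ ≤ 2 * g + max 0 (h - l) + s := by
  obtain ⟨C0, hC0, hM⟩ := hMv (s / 64) B (by positivity) hB
  refine ⟨(2 * C0) ^ (64 / s) + 2, by have := Real.rpow_nonneg (show 0 ≤ 2 * C0 by linarith) (64 / s); linarith, ?_⟩
  intro F T T0 h l g τ W hCT hh0 hh2 hl0 hl2 hF hL hτ
  have hT2 : 2 ≤ T := by
    have := Real.rpow_nonneg (show 0 ≤ 2 * C0 by linarith) (64 / s)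
    linarith
  have hT0 : 0 < T := by linarith
  have hT1 : 1 ≤ T := by linarith
  have hCs : 2 * C0 ≤ T ^ (s / 64) := by
    have h1 : (2 * C0) ^ (64 / s) ≤ T := by linarith
    calc 2 * C0 = ((2 * C0) ^ (64 / s)) ^ (s / 64) := by
          rw [← Real.rpow_mul (by linarith)]
          rw [show 64 / s * (s / 64) = 1 by field_simp, Real.rpow_one]
      _ ≤ T ^ (s / 64) := by
          apply Real.rpow_le_rpow (Real.rpow_nonneg (by linarith) _) h1 (by positivity)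
  have h1 := hM F (T ^ l) (T ^ (s / 64)) (T ^ (l - g)) T0 (T ^ h) W (Real.one_le_rpow hT1 hl0.le)
    (Real.one_le_rpow hT1 hh0) (by positivity) (by positivity) hF hL
  set X := max 0 (h - l) with hX
  have hX0 : 0 ≤ X := le_max_left _ _
  have hX1 : h - l ≤ X := le_max_right _ _
  have h2 : (T ^ l * T ^ h) ^ (s / 64) * (((T ^ l) ^ 2 + T ^ h * T ^ l) * (T ^ (s / 64) / T ^ (l - g)) ^ 2) ≤
      2 * T ^ (2 * g + X + 6 * s / 64) := by
    rw [add_mul, mul_add]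
    have e1 : (T ^ l * T ^ h) ^ (s / 64) * ((T ^ l) ^ 2 * (T ^ (s / 64) / T ^ (l - g)) ^ 2) ≤ T ^ (2 * g + X + 6 * s / 64) := by
      rw [← Real.rpow_add hT0, ← Real.rpow_sub hT0, pw hT0.le, pw hT0.le, ← Real.rpow_mul hT0.le,
        ← Real.rpow_add hT0, ← Real.rpow_add hT0]
      apply Real.rpow_le_rpow_of_exponent_le hT1
      push_cast
      nlinarith
    have e2 : (T ^ l * T ^ h) ^ (s / 64) * (T ^ h * T ^ l * (T ^ (s / 64) / T ^ (l - g)) ^ 2) ≤ T ^ (2 * g + X + 6 * s / 64) := by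
      rw [← Real.rpow_add hT0, ← Real.rpow_sub hT0, ← Real.rpow_add hT0, pw hT0.le, ← Real.rpow_mul hT0.le,
        ← Real.rpow_add hT0, ← Real.rpow_add hT0]
      apply Real.rpow_le_rpow_of_exponent_le hT1
      push_cast
      nlinarith
    linarith
  have h3 : T ^ τ ≤ (2 * C0) * T ^ (2 * g + X + 6 * s / 64) := by
    calc T ^ τ ≤ W.card := hτ
      _ ≤ _ := h1
      _ = C0 * ((T ^ l * T ^ h) ^ (s / 64) * (((T ^ l) ^ 2 + T ^ h * T ^ l) * (T ^ (s / 64) / T ^ (l - g)) ^ 2)) := by ring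
      _ ≤ C0 * (2 * T ^ (2 * g + X + 6 * s / 64)) := by gcongr
      _ = _ := by ring
  have := expo (by linarith) h3 hCs
  linarith

theorem thr (K c : ℝ) (hc : 0 < c) : ∃ C : ℝ, 2 ≤ C ∧ ∀ T, C ≤ T → K ≤ T ^ c := by
  refine ⟨max 0 K ^ (1 / c) + 2, ?_, ?_⟩
  · have := Real.rpow_nonneg (le_max_left 0 K) (1 / c)
    linarith
  · intro T hT
    have h0 := Real.rpow_nonneg (le_max_left 0 K) (1 / c)
    have h1 : max 0 K ^ (1 / c) ≤ T := by linarith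
    calc K ≤ max 0 K := le_max_right _ _
      _ = (max 0 K ^ (1 / c)) ^ c := by
          rw [← Real.rpow_mul (le_max_left 0 K), show 1 / c * c = 1 by field_simp, Real.rpow_one]
      _ ≤ T ^ c := Real.rpow_le_rpow h0 h1 hc.le

/-- Huxley -/
theorem lv_hx (hHx : StHx) (s B : ℝ) (hs : 0 < s) (hB : 1 ≤ B) : ∃ C : ℝ, 1 ≤ C ∧
    ∀ (F : ℝ → ℂ) (T T0 h l g τ : ℝ) (W : Finset ℝ), C ≤ T → 0 ≤ h → h ≤ 2 → 0 < l → l ≤ 2 →
      DPc F (T ^ l) B (T ^ (s / 64)) → Lset F (T ^ (l - g)) T0 (T ^ h) W → T ^ τ ≤ W.card →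
      τ ≤ max (2 * g) (h + 6 * g - 2 * l) + s := by
  obtain ⟨C0, hC0, hM⟩ := hHx B hB
  obtain ⟨C1, hC1, hthr⟩ := thr (2 * C0) (s / 64) (by positivity)
  refine ⟨C1, by linarith, ?_⟩
  intro F T T0 h l g τ W hCT hh0 hh2 hl0 hl2 hF hL hτ
  have hT2 : 2 ≤ T := hC1.trans hCT
  have hT0 : 0 < T := by linarith
  have hT1 : 1 ≤ T := by linarith
  have hCs := hthr T hCT
  have h1 := hM F (T ^ l) (T ^ (s / 64)) (T ^ (l - g)) T0 (T ^ h) W (Real.one_le_rpow hT1 hl0.le)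
    (Real.one_le_rpow hT1 hh0) (by positivity) (by positivity) hF hL
  set X := max (2 * g) (h + 6 * g - 2 * l) with hX
  have hX0 : 2 * g ≤ X := le_max_left _ _
  have hX1 : h + 6 * g - 2 * l ≤ X := le_max_right _ _
  have h2 : (T ^ l) ^ 2 * (T ^ (s / 64) / T ^ (l - g)) ^ 2 + T ^ h * (T ^ l) ^ 4 * (T ^ (s / 64) / T ^ (l - g)) ^ 6 ≤
      2 * T ^ (X + 6 * s / 64) := by
    have e1 : (T ^ l) ^ 2 * (T ^ (s / 64) / T ^ (l - g)) ^ 2 ≤ T ^ (X + 6 * s / 64) := by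
      rw [← Real.rpow_sub hT0, pw hT0.le, pw hT0.le, ← Real.rpow_add hT0]
      apply Real.rpow_le_rpow_of_exponent_le hT1
      push_cast
      nlinarith
    have e2 : T ^ h * (T ^ l) ^ 4 * (T ^ (s / 64) / T ^ (l - g)) ^ 6 ≤ T ^ (X + 6 * s / 64) := by
      rw [← Real.rpow_sub hT0, pw hT0.le, pw hT0.le, ← Real.rpow_add hT0, ← Real.rpow_add hT0]
      apply Real.rpow_le_rpow_of_exponent_le hT1
      push_cast
      nlinarith
    linarith
  have h3 : T ^ τ ≤ (2 * C0) * T ^ (X + 6 * s / 64) := by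
    calc T ^ τ ≤ W.card := hτ
      _ ≤ _ := h1
      _ ≤ C0 * (2 * T ^ (X + 6 * s / 64)) := by gcongr
      _ = _ := by ring
  have := expo (by linarith) h3 hCs
  linarith

/-- Guth-Maynard -/
theorem lv_gm (hG : StG) (s B : ℝ) (hs : 0 < s) (hB : 1 ≤ B) (q : ℕ) (hq : 1 ≤ q) : ∃ C : ℝ, 1 ≤ C ∧
    ∀ (F : ℝ → ℂ) (T T0 h l g τ : ℝ) (W : Finset ℝ), C ≤ T → 0 ≤ h → h ≤ 2 → 0 < l → l ≤ 2 →
      DPc F (T ^ l) B (T ^ (s / 64)) → Lset F (T ^ (l - g)) T0 (T ^ h) W → T ^ τ ≤ W.card →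
      ∀ t : ℝ, l ≤ t → t + s ≤ 2 * l → τ ≤ GMh h q l g t + s := by
  obtain ⟨C0, hC0, hM⟩ := hG q (s / 64) B hq (by positivity) hB
  obtain ⟨C1, hC1, hthr⟩ := thr (16 * C0) (s / 64) (by positivity)
  refine ⟨C1, by linarith, ?_⟩
  intro F T T0 h l g τ W hCT hh0 hh2 hl0 hl2 hF hL hτ t hlt htl
  have hT2 : 2 ≤ T := hC1.trans hCT
  have hT0 : 0 < T := by linarith
  have hT1 : 1 ≤ T := by linarith
  have hCs := hthr T hCT
  have hq0 : (0 : ℝ) < q := by exact_mod_cast hq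
  have hc1 : C0 * T ^ t ≤ (T ^ l) ^ 2 := by
    rw [pw hT0.le]
    calc C0 * T ^ t ≤ T ^ (s / 64) * T ^ t := by
          gcongr
          linarith
      _ = T ^ (s / 64 + t) := by rw [← Real.rpow_add hT0]
      _ ≤ _ := by
          apply Real.rpow_le_rpow_of_exponent_le hT1
          push_cast
          linarith
  have h1 := hM F (T ^ l) (T ^ (s / 64)) (T ^ (l - g)) T0 (T ^ h) (T ^ t) W (Real.one_le_rpow hT1 hl0.le)
    (Real.one_le_rpow hT1 hh0) (Real.rpow_le_rpow_of_exponent_le hT1 hlt) hc1 (by positivity) (by positivity) hF hL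
  set X := max (2 * g) (max (4 * t / 3 - 2 * l + 4 * g) (max (t / 2 - l + 4 * g)
    (max (t - 2 * l + 16 * g / 3) (max (t - 2 * l + 28 * g / 5) (max (3 * t / 2 - 3 * l + 7 * g)
      (max ((q : ℝ) / (q + 1) * (t / q - l + 6 * g)) ((q : ℝ) / (q + 1) * (t - 2 * l + 6 * g)))))))) with hX
  have hX1 : 2 * g ≤ X := le_max_left _ _
  have hX2 : 4 * t / 3 - 2 * l + 4 * g ≤ X := (le_max_left _ _).trans (le_max_right _ _)
  have hX3 : t / 2 - l + 4 * g ≤ X := (le_max_left _ _).trans ((le_max_right _ _).trans (le_max_right _ _))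
  have hX4 : t - 2 * l + 16 * g / 3 ≤ X :=
    (le_max_left _ _).trans ((le_max_right _ _).trans ((le_max_right _ _).trans (le_max_right _ _)))
  have hX5 : t - 2 * l + 28 * g / 5 ≤ X :=
    (le_max_left _ _).trans ((le_max_right _ _).trans ((le_max_right _ _).trans ((le_max_right _ _).trans (le_max_right _ _))))
  have hX6 : 3 * t / 2 - 3 * l + 7 * g ≤ X :=
    (le_max_left _ _).trans ((le_max_right _ _).trans ((le_max_right _ _).trans ((le_max_right _ _).trans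
      ((le_max_right _ _).trans (le_max_right _ _)))))
  have hX7 : (q : ℝ) / (q + 1) * (t / q - l + 6 * g) ≤ X :=
    (le_max_left _ _).trans ((le_max_right _ _).trans ((le_max_right _ _).trans ((le_max_right _ _).trans
      ((le_max_right _ _).trans ((le_max_right _ _).trans (le_max_right _ _))))))
  have hX8 : (q : ℝ) / (q + 1) * (t - 2 * l + 6 * g) ≤ X :=
    (le_max_right _ _).trans ((le_max_right _ _).trans ((le_max_right _ _).trans ((le_max_right _ _).trans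
      ((le_max_right _ _).trans ((le_max_right _ _).trans (le_max_right _ _))))))
  have hqq : (q : ℝ) / (q + 1) ≤ 1 := by
    rw [div_le_one (by linarith)]; linarith
  have hqq0 : 0 ≤ (q : ℝ) / (q + 1) := by positivity
  have hPG : PG q (T ^ l) (T ^ t) (T ^ (s / 64) / T ^ (l - g)) ≤ 8 * T ^ (X + 7 * s / 64) := by
    unfold PG
    have hx : T ^ (s / 64) / T ^ (l - g) = T ^ (s / 64 - (l - g)) := by rw [← Real.rpow_sub hT0]
    rw [hx]
    have e1 : (T ^ l) ^ 2 * (T ^ (s / 64 - (l - g))) ^ 2 ≤ T ^ (X + 7 * s / 64) := by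
      rw [pw hT0.le, pw hT0.le, ← Real.rpow_add hT0]
      apply Real.rpow_le_rpow_of_exponent_le hT1
      push_cast
      linarith
    have e2 : (T ^ t) ^ (4 / 3 : ℝ) * (T ^ l) ^ 2 * (T ^ (s / 64 - (l - g))) ^ 4 ≤ T ^ (X + 7 * s / 64) := by
      rw [pw hT0.le, pw hT0.le, ← Real.rpow_mul hT0.le, ← Real.rpow_add hT0, ← Real.rpow_add hT0]
      apply Real.rpow_le_rpow_of_exponent_le hT1
      push_cast
      linarith
    have e3 : (T ^ t) ^ (1 / 2 : ℝ) * (T ^ l) ^ 3 * (T ^ (s / 64 - (l - g))) ^ 4 ≤ T ^ (X + 7 * s / 64) := by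
      rw [pw hT0.le, pw hT0.le, ← Real.rpow_mul hT0.le, ← Real.rpow_add hT0, ← Real.rpow_add hT0]
      apply Real.rpow_le_rpow_of_exponent_le hT1
      push_cast
      linarith
    have e4 : T ^ t * (T ^ l) ^ (10 / 3 : ℝ) * (T ^ (s / 64 - (l - g))) ^ (16 / 3 : ℝ) ≤ T ^ (X + 7 * s / 64) := by
      rw [← Real.rpow_mul hT0.le, ← Real.rpow_mul hT0.le, ← Real.rpow_add hT0, ← Real.rpow_add hT0]
      apply Real.rpow_le_rpow_of_exponent_le hT1
      linarith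
    have e5 : T ^ t * (T ^ l) ^ (18 / 5 : ℝ) * (T ^ (s / 64 - (l - g))) ^ (28 / 5 : ℝ) ≤ T ^ (X + 7 * s / 64) := by
      rw [← Real.rpow_mul hT0.le, ← Real.rpow_mul hT0.le, ← Real.rpow_add hT0, ← Real.rpow_add hT0]
      apply Real.rpow_le_rpow_of_exponent_le hT1
      linarith
    have e6 : (T ^ t) ^ (3 / 2 : ℝ) * (T ^ l) ^ 4 * (T ^ (s / 64 - (l - g))) ^ 7 ≤ T ^ (X + 7 * s / 64) := by
      rw [pw hT0.le, pw hT0.le, ← Real.rpow_mul hT0.le, ← Real.rpow_add hT0, ← Real.rpow_add hT0]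
      apply Real.rpow_le_rpow_of_exponent_le hT1
      push_cast
      linarith
    have e7 : ((T ^ l) ^ 5 * (T ^ (s / 64 - (l - g))) ^ 6 * (T ^ t) ^ (1 / (q : ℝ))) ^ ((q : ℝ) / (q + 1)) ≤
        T ^ (X + 7 * s / 64) := by
      rw [pw hT0.le, pw hT0.le, ← Real.rpow_mul hT0.le, ← Real.rpow_add hT0, ← Real.rpow_add hT0, ← Real.rpow_mul hT0.le]
      apply Real.rpow_le_rpow_of_exponent_le hT1
      push_cast
      have e : (l * 5 + (s / 64 - (l - g)) * 6 + t * (1 / (q : ℝ))) * ((q : ℝ) / (q + 1)) =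
          (q : ℝ) / (q + 1) * (t / q - l + 6 * g) + (q : ℝ) / (q + 1) * (6 * s / 64) := by ring
      rw [e]
      have : (q : ℝ) / (q + 1) * (6 * s / 64) ≤ 1 * (6 * s / 64) := by gcongr
      linarith
    have e8 : (T ^ t * (T ^ l) ^ 4 * (T ^ (s / 64 - (l - g))) ^ 6) ^ ((q : ℝ) / (q + 1)) ≤
        T ^ (X + 7 * s / 64) := by
      rw [pw hT0.le, pw hT0.le, ← Real.rpow_add hT0, ← Real.rpow_add hT0, ← Real.rpow_mul hT0.le]
      apply Real.rpow_le_rpow_of_exponent_le hT1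
      push_cast
      have e : (t + l * 4 + (s / 64 - (l - g)) * 6) * ((q : ℝ) / (q + 1)) =
          (q : ℝ) / (q + 1) * (t - 2 * l + 6 * g) + (q : ℝ) / (q + 1) * (6 * s / 64) := by ring
      rw [e]
      have : (q : ℝ) / (q + 1) * (6 * s / 64) ≤ 1 * (6 * s / 64) := by gcongr
      linarith
    linarith
  set Y := max 0 (h - t) with hY
  have hY0 : 0 ≤ Y := le_max_left _ _
  have hY1 : h - t ≤ Y := le_max_right _ _
  have h4 : 1 + T ^ h / T ^ t ≤ 2 * T ^ Y := by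
    rw [← Real.rpow_sub hT0]
    have := Real.one_le_rpow hT1 hY0
    have := Real.rpow_le_rpow_of_exponent_le hT1 hY1
    linarith
  have h5 : (T ^ l) ^ (s / 64) ≤ T ^ (2 * s / 64) := by
    rw [← Real.rpow_mul hT0.le]
    apply Real.rpow_le_rpow_of_exponent_le hT1
    nlinarith
  have hPG0 : 0 ≤ PG q (T ^ l) (T ^ t) (T ^ (s / 64) / T ^ (l - g)) := by
    unfold PG
    positivity
  have h40 : 0 ≤ 1 + T ^ h / T ^ t := by positivity
  have h3 : T ^ τ ≤ (16 * C0) * T ^ (Y + X + 9 * s / 64) := by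
    calc T ^ τ ≤ W.card := hτ
      _ ≤ _ := h1
      _ ≤ C0 * T ^ (2 * s / 64) * ((2 * T ^ Y) * (8 * T ^ (X + 7 * s / 64))) := by gcongr
      _ = (16 * C0) * (T ^ (2 * s / 64) * (T ^ Y * T ^ (X + 7 * s / 64))) := by ring
      _ = (16 * C0) * T ^ (Y + X + 9 * s / 64) := by
          rw [← Real.rpow_add hT0, ← Real.rpow_add hT0]
          congr 2
          ring
  have := expo (by linarith) h3 hCs
  unfold GMh
  rw [← hX, ← hY]
  linarith

/-- Jutila -/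
theorem lv_jj (hJ : StJ) (s B : ℝ) (hs : 0 < s) (hB : 1 ≤ B) : ∃ C : ℝ, 1 ≤ C ∧
    ∀ (F : ℝ → ℂ) (T T0 h l g τ : ℝ) (W : Finset ℝ), C ≤ T → 0 ≤ h → h ≤ 2 → 0 < l → l ≤ 2 →
      DPc F (T ^ l) B (T ^ (s / 64)) → Lset F (T ^ (l - g)) T0 (T ^ h) W → T ^ τ ≤ W.card →
      ∀ t : ℝ, 0 ≤ t → t ≤ h → g + s ≤ l / 4 → τ ≤ JTh h l g t + s := by
  obtain ⟨C0, hC0, hM⟩ := hJ 3 (s / 64) B (by norm_num) (by positivity) hB
  obtain ⟨C1, hC1, hthr⟩ := thr (6 * C0) (s / 64) (by positivity)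
  refine ⟨C1, by linarith, ?_⟩
  intro F T T0 h l g τ W hCT hh0 hh2 hl0 hl2 hF hL hτ t ht0 hth hgl
  have hT2 : 2 ≤ T := hC1.trans hCT
  have hT0 : 0 < T := by linarith
  have hT1 : 1 ≤ T := by linarith
  have hCs := hthr T hCT
  have h5 : (T ^ l * T ^ t) ^ (s / 64) ≤ T ^ (4 * s / 64) := by
    rw [← Real.rpow_add hT0, ← Real.rpow_mul hT0.le]
    apply Real.rpow_le_rpow_of_exponent_le hT1
    nlinarith
  have hc1 : C0 * (T ^ l * T ^ t) ^ (s / 64) * (T ^ l) ^ (3 / 2 : ℝ) ≤ (T ^ (l - g) / T ^ (s / 64)) ^ 2 := by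
    calc C0 * (T ^ l * T ^ t) ^ (s / 64) * (T ^ l) ^ (3 / 2 : ℝ) ≤ T ^ (s / 64) * T ^ (4 * s / 64) * T ^ (l * (3 / 2)) := by
          rw [← Real.rpow_mul hT0.le]
          gcongr
          linarith
      _ = T ^ (s / 64 + 4 * s / 64 + l * (3 / 2)) := by rw [← Real.rpow_add hT0, ← Real.rpow_add hT0]
      _ ≤ T ^ ((l - g - s / 64) * (2 : ℕ)) := by
          apply Real.rpow_le_rpow_of_exponent_le hT1
          push_cast
          linarith
      _ = _ := by rw [← Real.rpow_sub hT0, pw hT0.le]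
  have h1 := hM F (T ^ l) (T ^ (s / 64)) (T ^ (l - g)) T0 (T ^ h) (T ^ t) W (Real.one_le_rpow hT1 hl0.le)
    (Real.one_le_rpow hT1 hh0) (Real.one_le_rpow hT1 ht0) (by positivity) (by positivity) hF hL hc1
  set X := max (2 * g) (max (3 * t - 6 * l + 12 * g) (2 * t / 3 - 4 * l + 16 * g)) with hX
  have hX1 : 2 * g ≤ X := le_max_left _ _
  have hX2 : 3 * t - 6 * l + 12 * g ≤ X := (le_max_left _ _).trans (le_max_right _ _)
  have hX3 : 2 * t / 3 - 4 * l + 16 * g ≤ X := (le_max_right _ _).trans (le_max_right _ _)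
  have hP : (T ^ l) ^ 2 * (T ^ (s / 64) / T ^ (l - g)) ^ 2 + (T ^ t) ^ 3 * (T ^ l) ^ (2 * 3) * (T ^ (s / 64) / T ^ (l - g)) ^ (4 * 3) +
      (T ^ t) ^ (2 / 3 : ℝ) * (T ^ l) ^ (4 * 3) * (T ^ (s / 64) / T ^ (l - g)) ^ (16 * ((3 : ℕ) : ℝ) / 3) ≤ 3 * T ^ (X + 16 * s / 64) := by
    have hx : T ^ (s / 64) / T ^ (l - g) = T ^ (s / 64 - (l - g)) := by rw [← Real.rpow_sub hT0]
    rw [hx]
    have e1 : (T ^ l) ^ 2 * (T ^ (s / 64 - (l - g))) ^ 2 ≤ T ^ (X + 16 * s / 64) := by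
      rw [pw hT0.le, pw hT0.le, ← Real.rpow_add hT0]
      apply Real.rpow_le_rpow_of_exponent_le hT1
      push_cast
      linarith
    have e2 : (T ^ t) ^ 3 * (T ^ l) ^ (2 * 3) * (T ^ (s / 64 - (l - g))) ^ (4 * 3) ≤ T ^ (X + 16 * s / 64) := by
      rw [pw hT0.le, pw hT0.le, pw hT0.le, ← Real.rpow_add hT0, ← Real.rpow_add hT0]
      apply Real.rpow_le_rpow_of_exponent_le hT1
      push_cast
      linarith
    have e3 : (T ^ t) ^ (2 / 3 : ℝ) * (T ^ l) ^ (4 * 3) * (T ^ (s / 64 - (l - g))) ^ (16 * ((3 : ℕ) : ℝ) / 3) ≤ T ^ (X + 16 * s / 64) := by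
      rw [pw hT0.le, ← Real.rpow_mul hT0.le, ← Real.rpow_mul hT0.le, ← Real.rpow_add hT0, ← Real.rpow_add hT0]
      apply Real.rpow_le_rpow_of_exponent_le hT1
      push_cast
      linarith
    linarith
  set Y := max 0 (h - t) with hY
  have hY0 : 0 ≤ Y := le_max_left _ _
  have hY1 : h - t ≤ Y := le_max_right _ _
  have h4 : 1 + T ^ h / T ^ t ≤ 2 * T ^ Y := by
    rw [← Real.rpow_sub hT0]
    have := Real.one_le_rpow hT1 hY0
    have := Real.rpow_le_rpow_of_exponent_le hT1 hY1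
    linarith
  have h3 : T ^ τ ≤ (6 * C0) * T ^ (Y + X + 20 * s / 64) := by
    calc T ^ τ ≤ W.card := hτ
      _ ≤ _ := h1
      _ ≤ C0 * T ^ (4 * s / 64) * ((2 * T ^ Y) * (3 * T ^ (X + 16 * s / 64))) := by gcongr
      _ = (6 * C0) * (T ^ (4 * s / 64) * (T ^ Y * T ^ (X + 16 * s / 64))) := by ring
      _ = (6 * C0) * T ^ (Y + X + 20 * s / 64) := by
          rw [← Real.rpow_add hT0, ← Real.rpow_add hT0]
          congr 2
          ring
  have := expo (by linarith) h3 hCs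
  unfold JTh
  rw [← hX, ← hY]
  linarith

/-- finitely many thresholds -/
theorem fin_thr (K : ℕ) (P : ℕ → ℝ → Prop) (h : ∀ k ≤ K, ∃ C : ℝ, 1 ≤ C ∧ ∀ T, C ≤ T → P k T) :
    ∃ C : ℝ, 1 ≤ C ∧ ∀ T, C ≤ T → ∀ k ≤ K, P k T := by
  induction K with
  | zero =>
    obtain ⟨C, hC, h1⟩ := h 0 le_rfl
    refine ⟨C, hC, fun T hT k hk => ?_⟩
    have : k = 0 := by omega
    subst this
    exact h1 T hT
  | succ K ih =>
    obtain ⟨C, hC, h1⟩ := ih (fun k hk => h k (by omega))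
    obtain ⟨C', hC', h2⟩ := h (K + 1) le_rfl
    refine ⟨max C C', le_max_of_le_left hC, fun T hT k hk => ?_⟩
    rcases Nat.lt_or_ge k (K + 1) with h3 | h3
    · exact h1 T ((le_max_left _ _).trans hT) k (by omega)
    · have : k = K + 1 := by omega
      subst this
      exact h2 T ((le_max_right _ _).trans hT)

/-- all inequalities for a polynomial -/
theorem lv_all (hMv : StMv) (hHx : StHx) (hG : StG) (hJ : StJ) (s B : ℝ) (Q : ℕ) (hs : 0 < s) (hB : 1 ≤ B) :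
    ∃ C : ℝ, 1 ≤ C ∧
    ∀ T, C ≤ T → ∀ (F : ℝ → ℂ) (T0 h l g τ : ℝ) (W : Finset ℝ), 0 ≤ h → h ≤ 2 → 0 < l → l ≤ 2 →
      DPc F (T ^ l) B (T ^ (s / 64)) → Lset F (T ^ (l - g)) T0 (T ^ h) W → T ^ τ ≤ W.card →
      LVp h l g τ s Q := by
  obtain ⟨C1, hC1, h1⟩ := lv_mv hMv s B hs hB
  obtain ⟨C2, hC2, h2⟩ := lv_hx hHx s B hs hB
  obtain ⟨C3, hC3, h3⟩ := lv_jj hJ s B hs hB
  obtain ⟨C4, hC4, h4⟩ := fin_thr Q (fun q T => ∀ (F : ℝ → ℂ) (T0 h l g τ : ℝ) (W : Finset ℝ), 0 ≤ h → h ≤ 2 →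
      0 < l → l ≤ 2 → DPc F (T ^ l) B (T ^ (s / 64)) → Lset F (T ^ (l - g)) T0 (T ^ h) W → T ^ τ ≤ W.card →
      1 ≤ q → ∀ t : ℝ, l ≤ t → t + s ≤ 2 * l → τ ≤ GMh h q l g t + s) (by
    intro q _
    rcases Nat.eq_zero_or_pos q with h0 | hq
    · refine ⟨1, le_rfl, ?_⟩
      intro T _ F T0 h l g τ W _ _ _ _ _ _ _ hq1
      omega
    · obtain ⟨C, hC, h⟩ := lv_gm hG s B hs hB q hq
      refine ⟨C, hC, ?_⟩
      intro T hT F T0 h' l g τ W a1 a2 a3 a4 a5 a6 a7 _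
      exact h F T T0 h' l g τ W hT a1 a2 a3 a4 a5 a6 a7)
  refine ⟨max (max C1 C2) (max C3 C4), le_max_of_le_left (le_max_of_le_left hC1), ?_⟩
  intro T hT F T0 h l g τ W a1 a2 a3 a4 a5 a6 a7
  have t1 : C1 ≤ T := (le_max_left _ _).trans ((le_max_left _ _).trans hT)
  have t2 : C2 ≤ T := (le_max_right _ _).trans ((le_max_left _ _).trans hT)
  have t3 : C3 ≤ T := (le_max_left _ _).trans ((le_max_right _ _).trans hT)
  have t4 : C4 ≤ T := (le_max_right _ _).trans ((le_max_right _ _).trans hT)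
  exact ⟨h1 F T T0 h l g τ W t1 a1 a2 a3 a4 a5 a6 a7, h2 F T T0 h l g τ W t2 a1 a2 a3 a4 a5 a6 a7,
    fun q t hq hqQ hlt htl => h4 T t4 q hqQ F T0 h l g τ W a1 a2 a3 a4 a5 a6 a7 hq t hlt htl,
    fun t ht0 hth hgl => h3 F T T0 h l g τ W t3 a1 a2 a3 a4 a5 a6 a7 t ht0 hth hgl⟩

/-- the power of a block is a polynomial -/
theorem pb_dpc {a : ℕ → ℂ} {N : ℝ} (hN : 0 < N) (ha : IsBlk a N) : DPc (PB a N) N 2 1 := by
  refine ⟨a, ha.bd, ?_, fun t => rfl⟩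
  intro n hn
  obtain ⟨h1, h2⟩ := ha.supp n hn
  refine ⟨?_, h1, h2⟩
  have h3 : (0 : ℝ) < n := by linarith
  exact_mod_cast h3

/-- the power of a block -/
theorem pow_dpc (hPf : StPf) (k : ℕ) (ε : ℝ) (hε : 0 < ε) : ∃ C : ℝ, 1 ≤ C ∧
    ∀ T, C ≤ T → ∀ (a : ℕ → ℂ) (N b : ℝ), N = T ^ b → 0 ≤ b → k * b ≤ 2 → IsBlk a N →
      DPc (fun t => PB a N t ^ k) (T ^ (k * b)) (2 ^ k) (T ^ ε) := by
  obtain ⟨C0, hC0, h⟩ := hPf 1 (fun _ => k) (ε / 4) (by positivity)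
  obtain ⟨C1, hC1, hthr⟩ := thr (C0 * (2 ^ k) ^ (ε / 4)) (ε / 2) (by positivity)
  refine ⟨C1, by linarith, ?_⟩
  intro T hT a N b hN hb hkb ha
  have hT2 : 2 ≤ T := hC1.trans hT
  have hT0 : 0 < T := by linarith
  have hT1 : 1 ≤ T := by linarith
  have hN1 : 1 ≤ N := by rw [hN]; exact Real.one_le_rpow hT1 hb
  have h1 := h (fun _ => PB a N) (fun _ => N) 2 1 (by norm_num) le_rfl (fun _ => hN1)
    (fun _ => pb_dpc (by linarith) ha)
  simp only [Finset.univ_unique, Finset.prod_singleton, Finset.sum_const, Finset.card_singleton, one_smul, one_pow,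
    mul_one] at h1
  have hNk : N ^ k = T ^ (k * b) := by
    rw [hN, pw hT0.le, mul_comm]
  rw [hNk] at h1
  refine Pf_aux.mono h1 ?_
  calc C0 * (2 ^ k * T ^ (k * b)) ^ (ε / 4) = C0 * (2 ^ k) ^ (ε / 4) * (T ^ (k * b)) ^ (ε / 4) := by
        rw [Real.mul_rpow (by positivity) (by positivity)]; ring
    _ ≤ T ^ (ε / 2) * T ^ (ε / 2) := by
        have h2 : (T ^ (k * b)) ^ (ε / 4) ≤ T ^ (ε / 2) := by
          rw [← Real.rpow_mul hT0.le]
          apply Real.rpow_le_rpow_of_exponent_le hT1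
          nlinarith
        have := hthr T hT
        gcongr
    _ = T ^ ε := by rw [← Real.rpow_add hT0]; congr 1; ring

/-- **the large value inequalities for a block** -/
theorem lv_block (hMv : StMv) (hHx : StHx) (hG : StG) (hJ : StJ) (hPf : StPf) (s η : ℝ) (Q : ℕ) (hs : 0 < s) (hη : 0 < η) :
    ∃ C : ℝ, 1 ≤ C ∧
    ∀ T, C ≤ T → ∀ (a : ℕ → ℂ) (N b w h T0 τ : ℝ) (W : Finset ℝ), N = T ^ b → η ≤ b → IsBlk a N → 0 ≤ h → h ≤ 2 →
      Sep W → (∀ t ∈ W, T0 ≤ t ∧ t ≤ T0 + T ^ h) → (∀ t ∈ W, T ^ (b - w) ≤ ‖PB a N t‖) → T ^ τ ≤ W.card →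
      ∀ k : ℕ, 1 ≤ k → k * b ≤ 2 → LVp h (k * b) (k * w) τ s Q := by
  set K : ℕ := ⌈2 / η⌉₊ with hK
  obtain ⟨C, hC, hmain⟩ := fin_thr K (fun k T => ∀ (a : ℕ → ℂ) (N b w h T0 τ : ℝ) (W : Finset ℝ), N = T ^ b →
      η ≤ b → IsBlk a N → 0 ≤ h → h ≤ 2 →
      Sep W → (∀ t ∈ W, T0 ≤ t ∧ t ≤ T0 + T ^ h) → (∀ t ∈ W, T ^ (b - w) ≤ ‖PB a N t‖) → T ^ τ ≤ W.card →
      1 ≤ k → k * b ≤ 2 → LVp h (k * b) (k * w) τ s Q) (by
    intro k _
    obtain ⟨C1, hC1, h1⟩ := lv_all hMv hHx hG hJ s (2 ^ k) Q hs (one_le_pow₀ (by norm_num))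
    obtain ⟨C2, hC2, h2⟩ := pow_dpc hPf k (s / 64) (by positivity)
    refine ⟨max (max C1 C2) 1, le_max_right _ _, ?_⟩
    intro T hT a N b w h T0 τ W hN hb ha hh0 hh2 hW hWT hWV hτ hk hkb
    have t1 : C1 ≤ T := (le_max_left _ _).trans ((le_max_left _ _).trans hT)
    have t2 : C2 ≤ T := (le_max_right _ _).trans ((le_max_left _ _).trans hT)
    have hT1 : 1 ≤ T := (le_max_right _ _).trans hT
    have hk0 : (0 : ℝ) < k := by exact_mod_cast hk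
    have hb0 : 0 < b := by linarith
    refine h1 T t1 (fun t => PB a N t ^ k) T0 h (k * b) (k * w) τ W hh0 hh2 (by positivity) hkb
      (h2 T t2 a N b hN hb0.le hkb ha) ⟨hW, hWT, ?_⟩ hτ
    intro t ht
    rw [norm_pow]
    calc T ^ (k * b - k * w) = (T ^ (b - w)) ^ k := by
          rw [pw (by linarith)]; congr 1; ring
      _ ≤ _ := pow_le_pow_left₀ (by positivity) (hWV t ht) k)
  refine ⟨C, hC, ?_⟩
  intro T hT a N b w h T0 τ W hN hb ha hh0 hh2 hW hWT hWV hτ k hk hkb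
  refine hmain T hT k ?_ a N b w h T0 τ W hN hb ha hh0 hh2 hW hWT hWV hτ hk hkb
  rw [hK]
  have hk0 : (0 : ℝ) < k := by exact_mod_cast hk
  have h1 : (k : ℝ) ≤ 2 / η := by
    rw [le_div_iff₀ hη]
    nlinarith
  exact_mod_cast h1.trans (Nat.le_ceil _)

end Pool.Agent.Work.MP_a8fbd7_nt.OX.CELL
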