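import Mathlib
import Pool.Agent.Work.MP_a8fbd7_nt.OX.Defs
import Pool.Agent.Work.MP_a8fbd7_nt.OX.CollInt
import Pool.Agent.Work.MP_a8fbd7_nt.OX.CELL.LVh
import Pool.Agent.Work.MP_56b8f5_nt.UC.I_Mv

/-!
MP_a8fbd7_nt, block OX, part CELL: the collision inequality on a class.
Author: helper63.
-/

set_option autoImplicit false

open MeasureTheory Set Filter Topology

noncomputable section

namespace Pool.Agent.Work.MP_a8fbd7_nt.OX.CELL

open Pool.Agent.Work.MP_56b8f5_nt.UC (Sep Dp)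
open Pool.Agent.Work.MP_a8fbd7_nt.OX

/-- Cauchy-Schwarz on a compact set -/
theorem cs_set (E : Set ℝ) (hE : IsCompact E) (f : ℝ → ℝ) (hf : Continuous f) :
    (∫ t in E, f t) ^ 2 ≤ (volume E).toReal * ∫ t in E, f t ^ 2 := by
  set I := ∫ t in E, f t with hI
  set Y := ∫ t in E, f t ^ 2 with hY
  set v := (volume E).toReal with hv
  have hEfin : volume E ≠ ⊤ := hE.measure_lt_top.ne
  rcases (ENNReal.toReal_nonneg (a := volume E)).eq_or_lt with h0 | hpos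
  · have h1 : volume E = 0 := by
      rcases (ENNReal.toReal_eq_zero_iff _).mp h0.symm with h | h
      · exact h
      · exact absurd h hEfin
    have h2 : I = 0 := by rw [hI, setIntegral_measure_zero _ h1]
    rw [h2, hv, ← h0]
    simp
  · have i1 : IntegrableOn f E := hf.continuousOn.integrableOn_compact hE
    have i2 : IntegrableOn (fun t => f t ^ 2) E := (hf.pow 2).continuousOn.integrableOn_compact hE
    have hexp : ∀ lam : ℝ, ∫ t in E, (f t - lam) ^ 2 = Y - 2 * lam * I + lam ^ 2 * v := by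
      intro lam
      have e1 : ∀ t, (f t - lam) ^ 2 = f t ^ 2 - 2 * lam * f t + lam ^ 2 := fun t => by ring
      simp only [e1]
      have i3 : IntegrableOn (fun t => 2 * lam * f t) E := i1.const_mul _
      have i4 : IntegrableOn (fun _ : ℝ => lam ^ 2) E := integrableOn_const hEfin
      have i5 : IntegrableOn (fun t => f t ^ 2 - 2 * lam * f t) E := i2.sub i3
      rw [integral_add i5 i4, integral_sub i2 i3, integral_const_mul, setIntegral_const, smul_eq_mul]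
      rw [← hI, ← hY]
      have : volume.real E = v := rfl
      rw [this]
      ring
    have h3 : 0 ≤ ∫ t in E, (f t - I / v) ^ 2 := integral_nonneg fun t => sq_nonneg _
    rw [hexp] at h3
    have hv0 : 0 < v := hpos
    have h4 : Y - 2 * (I / v) * I + (I / v) ^ 2 * v = Y - I ^ 2 / v := by
      field_simp
      ring
    rw [h4] at h3
    have h5 : I ^ 2 / v ≤ Y := by linarith
    rw [div_le_iff₀ hv0] at h5
    linarith

theorem PB_cont (a : ℕ → ℂ) (N : ℝ) : Continuous (fun t => PB a N t) :=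
  Pool.Agent.Work.MP_56b8f5_nt.UC.Mv_aux.Dp_cont _ _

theorem GS_cont {S : Finset ℝ} {T : ℝ} (hS : LSep S T) (c : ℝ → ℂ) : Continuous (fun t => GS S c t) := by
  unfold GS
  apply continuous_finsetSum
  intro x hx
  have hx0 : (x : ℂ) ≠ 0 := by exact_mod_cast (hS.1 x hx).ne'
  apply Continuous.mul continuous_const
  apply Continuous.const_cpow _ (Or.inl hx0)
  fun_prop

/-- `GS` as an exponential sum over the logarithms -/
theorem GS_log {S : Finset ℝ} {T : ℝ} (hT : 0 < T) (hS : LSep S T) (c : ℝ → ℂ) : ∃ (U : Finset ℝ) (b : ℝ → ℂ),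
    U.card = S.card ∧ (∀ u ∈ U, ∀ v ∈ U, u ≠ v → 1 / T ≤ |u - v|) ∧ ((∀ x, ‖c x‖ ≤ 1) → ∀ u ∈ U, ‖b u‖ ≤ 1) ∧
    ∀ t : ℝ, ∑ u ∈ U, b u * Complex.exp (Complex.I * u * t) = GS S c t := by
  classical
  have hinj : Set.InjOn Real.log (S : Set ℝ) := by
    intro x hx y hy hxy
    by_contra hne
    have := hS.2 x hx y hy hne
    rw [hxy, sub_self, abs_zero, mul_zero] at this
    linarith
  refine ⟨S.image Real.log, fun u => c (Real.exp u), Finset.card_image_of_injOn hinj, ?_, ?_, ?_⟩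
  · intro u hu v hv huv
    obtain ⟨x, hx, rfl⟩ := Finset.mem_image.mp hu
    obtain ⟨y, hy, rfl⟩ := Finset.mem_image.mp hv
    have := hS.2 x hx y hy (fun h => huv (by rw [h]))
    rw [div_le_iff₀ hT, mul_comm]
    exact this
  · intro hc u _
    exact hc _
  · intro t
    rw [Finset.sum_image hinj]
    unfold GS
    apply Finset.sum_congr rfl
    intro x hx
    have hx0 : 0 < x := hS.1 x hx
    have hx1 : (x : ℂ) ≠ 0 := by exact_mod_cast hx0.ne'
    show c (Real.exp (Real.log x)) * Complex.exp (Complex.I * (Real.log x) * t) = _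
    rw [Real.exp_log hx0, Complex.cpow_def_of_ne_zero hx1, ← Complex.ofReal_log hx0.le]
    congr 2
    ring

theorem GS_le {S : Finset ℝ} {T : ℝ} (hS : LSep S T) {c : ℝ → ℂ} (hc : ∀ x, ‖c x‖ ≤ 1) (t : ℝ) : ‖GS S c t‖ ≤ S.card := by
  unfold GS
  refine (norm_sum_le _ _).trans ?_
  rw [← nsmul_one, ← Finset.sum_const]
  apply Finset.sum_le_sum
  intro x hx
  rw [norm_mul, Complex.norm_cpow_eq_rpow_re_of_pos (hS.1 x hx)]
  simp
  exact hc x

/-- one power -/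
theorem coll_E1 (hPf : StPf) (s : ℝ) (hs : 0 < s) (hs1 : s ≤ 1) (j : ℕ) : ∃ C : ℝ, 1 ≤ C ∧
    ∀ T, C ≤ T → ∀ (T' : ℝ) (S : Finset ℝ) (c : ℝ → ℂ) (a : ℕ → ℂ) (N b w X τ : ℝ) (E : Set ℝ),
      1 ≤ T' → T' ≤ T ^ (1 + s / 16) → LSep S T → (S.card : ℝ) ≤ T ^ (1 / 3 : ℝ) → 1 ≤ S.card → (∀ x, ‖c x‖ ≤ 1) →
      IsBlk a N → N = T ^ b → 0 ≤ b → j * b ≤ 2 → IsCompact E → E ⊆ Icc T' (2 * T') →
      (∀ t ∈ E, T ^ (b - w) ≤ ‖PB a N t‖) → (volume E).toReal ≤ 2 * T ^ τ →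
      S.card * T ^ X ≤ ∫ t in E, ‖GS S c t‖ →
      2 * X - 2 * (j * w) ≤ τ + s ∨ ∀ r, T ^ r ≤ S.card → r ≤ τ + 2 * (j * w) - 2 * X + 1 - j * b + s := by
  obtain ⟨C1, hC1, h1⟩ := Pool.Agent.Work.MP_a8fbd7_nt.OX.coll_int_third (s / 16) (by positivity)
  obtain ⟨C2, hC2, h2⟩ := pow_dpc hPf j (s / 16) (by positivity)
  obtain ⟨C3, hC3, h3⟩ := thr (4 * 4 ^ j * C1) (s / 16) (by positivity)
  refine ⟨max C2 C3, le_max_of_le_left hC2, ?_⟩
  intro T hT T' S c a N b w X τ E hT'1 hT' hS hS3 hS1 hc ha hN hb hjb hE hEs hlow hvol hint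
  have t2 : C2 ≤ T := (le_max_left _ _).trans hT
  have t3 : C3 ≤ T := (le_max_right _ _).trans hT
  have hT2 : 2 ≤ T := hC3.trans t3
  have hT0 : 0 < T := by linarith
  have hT1 : 1 ≤ T := by linarith
  obtain ⟨U, bb, hU1, hU2, hU3, hU4⟩ := GS_log hT0 hS c
  obtain ⟨p, hp1, hp2, hp3⟩ := h2 T t2 a N b hN hb hjb ha
  set M : ℕ := ⌊(2 : ℝ) ^ j * T ^ (j * b)⌋₊ with hM
  set T2 : ℝ := max T T' with hT2d
  have hT2' : T ≤ T2 := le_max_left _ _
  have hT2'' : T' ≤ T2 := le_max_right _ _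
  have hT2le : T2 ≤ T ^ (1 + s / 16) := by
    apply max_le _ hT'
    calc T = T ^ (1 : ℝ) := (Real.rpow_one T).symm
      _ ≤ _ := Real.rpow_le_rpow_of_exponent_le hT1 (by linarith)
  have hT20 : 0 < T2 := by linarith
  have hA := h1 U bb M p (T ^ (s / 16)) T' T2 (by linarith) (fun n _ => hp1 n) (hU3 hc) (by
      intro u hu v hv huv
      refine le_trans ?_ (hU2 u hu v hv huv)
      exact one_div_le_one_div_of_le hT0 hT2') (by
      rw [hU1]
      exact hS3.trans (Real.rpow_le_rpow hT0.le hT2' (by norm_num)))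
  rw [hU1] at hA
  -- the left side
  have hGc : Continuous (fun t => ‖GS S c t‖) := (GS_cont hS c).norm
  have hPc : Continuous (fun t => ‖PB a N t‖) := (PB_cont a N).norm
  set f : ℝ → ℝ := fun t => ‖PB a N t‖ ^ j * ‖GS S c t‖ with hf
  have hfc : Continuous f := (hPc.pow j).mul hGc
  have hcs := cs_set E hE f hfc
  set J : ℝ := (S.card : ℝ) with hJ
  have hJ1 : 1 ≤ J := by rw [hJ]; exact_mod_cast hS1
  have hleft : T ^ (j * (b - w)) * (J * T ^ X) ≤ ∫ t in E, f t := by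
    calc T ^ (j * (b - w)) * (J * T ^ X) ≤ T ^ (j * (b - w)) * ∫ t in E, ‖GS S c t‖ := by gcongr
      _ = ∫ t in E, T ^ (j * (b - w)) * ‖GS S c t‖ := by rw [integral_const_mul]
      _ ≤ ∫ t in E, f t := by
          apply setIntegral_mono_on ((hGc.continuousOn.integrableOn_compact hE).const_mul _)
            (hfc.continuousOn.integrableOn_compact hE) hE.measurableSet
          intro t ht
          have e1 : T ^ (j * (b - w)) = (T ^ (b - w)) ^ j := by rw [pw hT0.le, mul_comm]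
          rw [hf, e1]
          have := hlow t ht
          have h5 : (0 : ℝ) ≤ T ^ (b - w) := by positivity
          show (T ^ (b - w)) ^ j * ‖GS S c t‖ ≤ ‖PB a N t‖ ^ j * ‖GS S c t‖
          gcongr
  have hright : ∫ t in E, f t ^ 2 ≤ C1 * (T ^ (s / 16)) ^ 2 * T2 ^ (s / 16) * (J * M * T2 + J ^ 2 * (M : ℝ) ^ 2) := by
    refine le_trans ?_ hA
    have e1 : ∀ t, ‖Dp M p t‖ ^ 2 * ‖∑ u ∈ U, bb u * Complex.exp (Complex.I * u * t)‖ ^ 2 = f t ^ 2 := by
      intro t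
      rw [hU4 t, hf, ← hp3 t, norm_pow]
      ring
    simp only [e1]
    rw [intervalIntegral.integral_of_le (by linarith), ← integral_Icc_eq_integral_Ioc]
    apply setIntegral_mono_set
    · exact (hfc.pow 2).continuousOn.integrableOn_compact isCompact_Icc
    · exact Eventually.of_forall fun t => sq_nonneg _
    · apply LE.le.eventuallyLE
      intro t ht
      have := hEs ht
      exact ⟨this.1, by linarith [this.2]⟩
  have hMle : (M : ℝ) ≤ 2 ^ j * T ^ (j * b) := Nat.floor_le (by positivity)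
  have hkey : (T ^ (j * (b - w)) * (J * T ^ X)) ^ 2 ≤
      2 * T ^ τ * (C1 * T ^ (4 * s / 16) * (4 ^ j * (J * (T ^ (j * b) * T ^ (1 + s / 16)) + J ^ 2 * T ^ (2 * (j * b))))) := by
    have hT2s : T2 ^ (s / 16) ≤ T ^ (2 * s / 16) := by
      calc T2 ^ (s / 16) ≤ (T ^ (1 + s / 16)) ^ (s / 16) := by gcongr
        _ = T ^ ((1 + s / 16) * (s / 16)) := by rw [← Real.rpow_mul hT0.le]
        _ ≤ _ := by
            apply Real.rpow_le_rpow_of_exponent_le hT1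
            nlinarith
    have h0 : 0 ≤ T ^ (j * (b - w)) * (J * T ^ X) := by positivity
    calc (T ^ (j * (b - w)) * (J * T ^ X)) ^ 2 ≤ (∫ t in E, f t) ^ 2 := by gcongr
      _ ≤ (volume E).toReal * ∫ t in E, f t ^ 2 := hcs
      _ ≤ (2 * T ^ τ) * (C1 * (T ^ (s / 16)) ^ 2 * T2 ^ (s / 16) * (J * M * T2 + J ^ 2 * (M : ℝ) ^ 2)) := by
          have : 0 ≤ ∫ t in E, f t ^ 2 := integral_nonneg fun t => sq_nonneg _
          gcongr
      _ ≤ (2 * T ^ τ) * (C1 * (T ^ (s / 16)) ^ 2 * T ^ (2 * s / 16) * (J * (2 ^ j * T ^ (j * b)) * T ^ (1 + s / 16) +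
            J ^ 2 * (2 ^ j * T ^ (j * b)) ^ 2)) := by gcongr
      _ = 2 * T ^ τ * (C1 * ((T ^ (s / 16)) ^ 2 * T ^ (2 * s / 16)) * (2 ^ j * (J * (T ^ (j * b) * T ^ (1 + s / 16))) +
            (2 ^ j) ^ 2 * (J ^ 2 * (T ^ (j * b)) ^ 2))) := by ring
      _ ≤ 2 * T ^ τ * (C1 * T ^ (4 * s / 16) * (4 ^ j * (J * (T ^ (j * b) * T ^ (1 + s / 16))) +
            4 ^ j * (J ^ 2 * T ^ (2 * (j * b))))) := by
          have e1 : (T ^ (s / 16)) ^ 2 * T ^ (2 * s / 16) = T ^ (4 * s / 16) := by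
            rw [pw hT0.le, ← Real.rpow_add hT0]
            congr 1
            push_cast
            ring
          have e2 : ((2 : ℝ) ^ j) ^ 2 = 4 ^ j := by
            rw [← pow_mul, mul_comm, pow_mul]
            norm_num
          have e3 : (T ^ (j * b)) ^ 2 = T ^ (2 * (j * b)) := by
            rw [pw hT0.le]
            congr 1
            push_cast
            ring
          have e4 : (2 : ℝ) ^ j ≤ 4 ^ j := by gcongr; norm_num
          rw [e1, e2, e3]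
          gcongr
      _ = _ := by ring
  have hlhs : (T ^ (j * (b - w)) * (J * T ^ X)) ^ 2 = J ^ 2 * T ^ (2 * X + 2 * (j * (b - w))) := by
    rw [mul_pow, mul_pow, pw hT0.le, pw hT0.le, Real.rpow_add hT0]
    have e1 : (j : ℝ) * (b - w) * (2 : ℕ) = 2 * (j * (b - w)) := by push_cast; ring
    have e2 : X * (2 : ℕ) = 2 * X := by push_cast; ring
    rw [e1, e2]
    ring
  rw [hlhs] at hkey
  have hK := h3 T t3
  rcases le_total (J * (T ^ (j * b) * T ^ (1 + s / 16))) (J ^ 2 * T ^ (2 * (j * b))) with hcase | hcase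
  · left
    have h5 : J ^ 2 * T ^ (2 * X + 2 * (j * (b - w))) ≤ J ^ 2 * ((4 * 4 ^ j * C1) * T ^ (τ + 4 * s / 16 + 2 * (j * b))) := by
      calc J ^ 2 * T ^ (2 * X + 2 * (j * (b - w))) ≤ _ := hkey
        _ ≤ 2 * T ^ τ * (C1 * T ^ (4 * s / 16) * (4 ^ j * (J ^ 2 * T ^ (2 * (j * b)) + J ^ 2 * T ^ (2 * (j * b))))) := by
            gcongr
        _ = J ^ 2 * ((4 * 4 ^ j * C1) * (T ^ τ * T ^ (4 * s / 16) * T ^ (2 * (j * b)))) := by ring
        _ = _ := by rw [← Real.rpow_add hT0, ← Real.rpow_add hT0]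
    have h6 : T ^ (2 * X + 2 * (j * (b - w))) ≤ (4 * 4 ^ j * C1) * T ^ (τ + 4 * s / 16 + 2 * (j * b)) :=
      le_of_mul_le_mul_left h5 (by positivity)
    have := expo (by linarith) h6 hK
    linarith
  · right
    intro r hr
    have h5 : J * (J * T ^ (2 * X + 2 * (j * (b - w)))) ≤
        J * ((4 * 4 ^ j * C1) * T ^ (τ + 4 * s / 16 + (j * b) + (1 + s / 16))) := by
      calc J * (J * T ^ (2 * X + 2 * (j * (b - w)))) = J ^ 2 * T ^ (2 * X + 2 * (j * (b - w))) := by ring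
        _ ≤ _ := hkey
        _ ≤ 2 * T ^ τ * (C1 * T ^ (4 * s / 16) * (4 ^ j * (J * (T ^ (j * b) * T ^ (1 + s / 16)) +
              J * (T ^ (j * b) * T ^ (1 + s / 16))))) := by gcongr
        _ = J * ((4 * 4 ^ j * C1) * (T ^ τ * T ^ (4 * s / 16) * T ^ (j * b) * T ^ (1 + s / 16))) := by ring
        _ = _ := by rw [← Real.rpow_add hT0, ← Real.rpow_add hT0, ← Real.rpow_add hT0]
    have h6 : J * T ^ (2 * X + 2 * (j * (b - w))) ≤ (4 * 4 ^ j * C1) * T ^ (τ + 4 * s / 16 + (j * b) + (1 + s / 16)) :=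
      le_of_mul_le_mul_left h5 (by positivity)
    have h7 : T ^ (r + (2 * X + 2 * (j * (b - w)))) ≤ (4 * 4 ^ j * C1) * T ^ (τ + 4 * s / 16 + (j * b) + (1 + s / 16)) := by
      refine le_trans ?_ h6
      rw [Real.rpow_add hT0]
      gcongr
    have := expo (by linarith) h7 hK
    linarith

/-- **the collision inequality on a class** -/
theorem coll_E (hPf : StPf) (s η : ℝ) (hs : 0 < s) (hs1 : s ≤ 1) (hη : 0 < η) : ∃ C : ℝ, 1 ≤ C ∧
    ∀ T, C ≤ T → ∀ (T' : ℝ) (S : Finset ℝ) (c : ℝ → ℂ) (a : ℕ → ℂ) (N b w X τ : ℝ) (E : Set ℝ),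
      1 ≤ T' → T' ≤ T ^ (1 + s / 16) → LSep S T → (S.card : ℝ) ≤ T ^ (1 / 3 : ℝ) → 1 ≤ S.card → (∀ x, ‖c x‖ ≤ 1) →
      IsBlk a N → N = T ^ b → η ≤ b → IsCompact E → E ⊆ Icc T' (2 * T') →
      (∀ t ∈ E, T ^ (b - w) ≤ ‖PB a N t‖) → (volume E).toReal ≤ 2 * T ^ τ →
      S.card * T ^ X ≤ ∫ t in E, ‖GS S c t‖ → ∀ j : ℕ, j * b ≤ 2 →
      2 * X - 2 * (j * w) ≤ τ + s ∨ ∀ r, T ^ r ≤ S.card → r ≤ τ + 2 * (j * w) - 2 * X + 1 - j * b + s := by
  obtain ⟨C, hC, hmain⟩ := fin_thr ⌈2 / η⌉₊ (fun j T => ∀ (T' : ℝ) (S : Finset ℝ) (c : ℝ → ℂ) (a : ℕ → ℂ)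
      (N b w X τ : ℝ) (E : Set ℝ),
      1 ≤ T' → T' ≤ T ^ (1 + s / 16) → LSep S T → (S.card : ℝ) ≤ T ^ (1 / 3 : ℝ) → 1 ≤ S.card → (∀ x, ‖c x‖ ≤ 1) →
      IsBlk a N → N = T ^ b → 0 ≤ b → j * b ≤ 2 → IsCompact E → E ⊆ Icc T' (2 * T') →
      (∀ t ∈ E, T ^ (b - w) ≤ ‖PB a N t‖) → (volume E).toReal ≤ 2 * T ^ τ →
      S.card * T ^ X ≤ ∫ t in E, ‖GS S c t‖ →
      2 * X - 2 * (j * w) ≤ τ + s ∨ ∀ r, T ^ r ≤ S.card → r ≤ τ + 2 * (j * w) - 2 * X + 1 - j * b + s)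
    (fun j _ => coll_E1 hPf s hs hs1 j)
  refine ⟨C, hC, ?_⟩
  intro T hT T' S c a N b w X τ E h1 h2 h3 h4 h5 h6 h7 h8 h9 h10 h11 h12 h13 h14 j hj
  refine hmain T hT j ?_ T' S c a N b w X τ E h1 h2 h3 h4 h5 h6 h7 h8 (by linarith) hj h10 h11 h12 h13 h14
  have hj0 : (0 : ℝ) ≤ j := Nat.cast_nonneg j
  have hj1 : (j : ℝ) ≤ 2 / η := by
    rw [le_div_iff₀ hη]
    nlinarith
  exact_mod_cast hj1.trans (Nat.le_ceil _)

end Pool.Agent.Work.MP_a8fbd7_nt.OX.CELL
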