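import Mathlib
import Pool.Agent.Work.MP_56b8f5_nt.UC.Defs

/-!
MP_a8fbd7_nt, block OX, part CELL: from an integral over a compact set to a sum over a `1`-separated set; the pigeonhole
principle for a finite cover.
Author: helper63.
-/

set_option autoImplicit false

open MeasureTheory Set Filter Topology

noncomputable section

namespace Pool.Agent.Work.MP_a8fbd7_nt.OX.CELL

open Pool.Agent.Work.MP_56b8f5_nt.UC (Sep)

/-- choice of the maximal points -/
theorem disc (E : Set ℝ) (hE : IsCompact E) (H : ℝ → ℝ) (hH : Continuous H) (hH0 : ∀ t, 0 ≤ H t) :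
    ∃ W : Finset ℝ, (∀ t ∈ W, t ∈ E) ∧ Sep W ∧ ∫ t in E, H t ≤ 2 * ∑ t ∈ W, H t := by
  classical
  obtain ⟨A, hA⟩ := hE.bddBelow
  obtain ⟨B, hB⟩ := hE.bddAbove
  have hpt : ∀ n : ℤ, (E ∩ Icc (n : ℝ) (n + 1)).Nonempty →
      ∃ t ∈ E ∩ Icc (n : ℝ) (n + 1), ∀ x ∈ E ∩ Icc (n : ℝ) (n + 1), H x ≤ H t := by
    intro n hn
    obtain ⟨t, ht, hm⟩ := (hE.inter_right isClosed_Icc).exists_isMaxOn hn hH.continuousOn
    exact ⟨t, ht, fun x hx => hm hx⟩
  choose! p hp1 hp2 using hpt
  set I : Finset ℤ := (Finset.Icc ⌊A⌋ ⌊B⌋).filter (fun n => (E ∩ Icc (n : ℝ) (n + 1)).Nonempty) with hI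
  have hIn : ∀ n ∈ I, (E ∩ Icc (n : ℝ) (n + 1)).Nonempty := fun n hn => (Finset.mem_filter.mp hn).2
  -- the integral
  have hint : ∫ t in E, H t ≤ ∑ n ∈ I, H (p n) := by
    have hU : E = ⋃ n ∈ I, (E ∩ Ico (n : ℝ) (n + 1)) := by
      ext x
      simp only [mem_iUnion, mem_inter_iff, exists_prop]
      constructor
      · intro hx
        refine ⟨⌊x⌋, ?_, hx, ?_⟩
        · rw [hI, Finset.mem_filter, Finset.mem_Icc]
          refine ⟨⟨Int.floor_le_floor (hA hx), Int.floor_le_floor (hB hx)⟩, x, hx, ?_⟩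
          exact ⟨Int.floor_le x, (Int.lt_floor_add_one x).le⟩
        · exact ⟨Int.floor_le x, Int.lt_floor_add_one x⟩
      · rintro ⟨n, _, hx, _⟩
        exact hx
    have hmeas : ∀ n ∈ I, MeasurableSet (E ∩ Ico (n : ℝ) (n + 1)) :=
      fun n _ => hE.measurableSet.inter measurableSet_Ico
    have hintE : IntegrableOn H E := hH.continuousOn.integrableOn_compact hE
    calc ∫ t in E, H t = ∫ t in ⋃ n ∈ I, (E ∩ Ico (n : ℝ) (n + 1)), H t := by rw [← hU]
      _ = ∑ n ∈ I, ∫ t in E ∩ Ico (n : ℝ) (n + 1), H t := by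
          apply integral_biUnion_finset I hmeas
          · intro m _ n _ hmn
            rw [Function.onFun, Set.disjoint_left]
            rintro x ⟨_, hx1⟩ ⟨_, hx2⟩
            rw [mem_Ico] at hx1 hx2
            have h1 : (m : ℝ) < n + 1 := by linarith [hx1.1, hx2.2]
            have h2 : (n : ℝ) < m + 1 := by linarith [hx2.1, hx1.2]
            have h1' : m < n + 1 := by exact_mod_cast h1
            have h2' : n < m + 1 := by exact_mod_cast h2
            omega
          · intro n _
            exact hintE.mono_set inter_subset_left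
      _ ≤ ∑ n ∈ I, H (p n) := by
          apply Finset.sum_le_sum
          intro n hn
          have hfin : volume (E ∩ Ico (n : ℝ) (n + 1)) ≤ ENNReal.ofReal 1 := by
            refine (measure_mono inter_subset_right).trans ?_
            rw [Real.volume_Ico]
            apply ENNReal.ofReal_le_ofReal
            linarith
          have hfin' : volume (E ∩ Ico (n : ℝ) (n + 1)) < ⊤ := hfin.trans_lt ENNReal.ofReal_lt_top
          calc ∫ t in E ∩ Ico (n : ℝ) (n + 1), H t
              ≤ ∫ _ in E ∩ Ico (n : ℝ) (n + 1), H (p n) := by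
                apply setIntegral_mono_on (hintE.mono_set inter_subset_left)
                  (integrableOn_const hfin'.ne) (hmeas n hn)
                intro x hx
                exact hp2 n (hIn n hn) x ⟨hx.1, Ico_subset_Icc_self hx.2⟩
            _ = (volume (E ∩ Ico (n : ℝ) (n + 1))).toReal * H (p n) := by
                rw [setIntegral_const, smul_eq_mul]; rfl
            _ ≤ 1 * H (p n) := by
                apply mul_le_mul_of_nonneg_right _ (hH0 _)
                have := ENNReal.toReal_mono ENNReal.ofReal_ne_top hfin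
                rwa [ENNReal.toReal_ofReal zero_le_one] at this
            _ = H (p n) := one_mul _
  -- half of it
  have hsub : ∀ c : ℤ → Prop, (∀ m n, c m → c n → m < n → m + 2 ≤ n) →
      ∃ W : Finset ℝ, (∀ t ∈ W, t ∈ E) ∧ Sep W ∧ ∑ t ∈ W, H t = ∑ n ∈ I.filter c, H (p n) := by
    intro c hc
    have hlt : ∀ m ∈ I.filter c, ∀ n ∈ I.filter c, m < n → p m + 1 ≤ p n := by
      intro m hm n hn hmn
      rw [Finset.mem_filter] at hm hn
      have h1 := hc m n hm.2 hn.2 hmn
      have h2 := (hp1 m (hIn m hm.1)).2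
      have h3 := (hp1 n (hIn n hn.1)).2
      have h4 : (m : ℝ) + 2 ≤ n := by exact_mod_cast h1
      linarith [h2.2, h3.1]
    have hinj : Set.InjOn p (I.filter c : Set ℤ) := by
      intro m hm n hn h
      by_contra hne
      rcases lt_or_gt_of_ne hne with h' | h'
      · have := hlt m (by exact_mod_cast hm) n (by exact_mod_cast hn) h'
        linarith
      · have := hlt n (by exact_mod_cast hn) m (by exact_mod_cast hm) h'
        linarith
    refine ⟨(I.filter c).image p, ?_, ?_, ?_⟩
    · intro t ht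
      obtain ⟨n, hn, rfl⟩ := Finset.mem_image.mp ht
      exact (hp1 n (hIn n (Finset.mem_filter.mp hn).1)).1
    · intro s hs t ht hst
      obtain ⟨m, hm, rfl⟩ := Finset.mem_image.mp hs
      obtain ⟨n, hn, rfl⟩ := Finset.mem_image.mp ht
      have hne : m ≠ n := fun h => hst (by rw [h])
      rcases lt_or_gt_of_ne hne with h' | h'
      · have := hlt m hm n hn h'
        rw [abs_sub_comm, abs_of_nonneg (by linarith)]
        linarith
      · have := hlt n hn m hm h'
        rw [abs_of_nonneg (by linarith)]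
        linarith
    · rw [Finset.sum_image]
      intro m hm n hn h
      exact hinj hm hn h
  obtain ⟨W1, hW1, hS1, hs1⟩ := hsub (fun n => Even n) (by
    intro m n hm hn hmn
    obtain ⟨a, rfl⟩ := hm
    obtain ⟨b, rfl⟩ := hn
    omega)
  obtain ⟨W2, hW2, hS2, hs2⟩ := hsub (fun n => ¬ Even n) (by
    intro m n hm hn hmn
    rw [Int.not_even_iff_odd] at hm hn
    obtain ⟨a, rfl⟩ := hm
    obtain ⟨b, rfl⟩ := hn
    omega)
  have hsum : ∑ n ∈ I, H (p n) = ∑ t ∈ W1, H t + ∑ t ∈ W2, H t := by
    rw [hs1, hs2, Finset.sum_filter_add_sum_filter_not]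
  rcases le_total (∑ t ∈ W1, H t) (∑ t ∈ W2, H t) with h | h
  · exact ⟨W2, hW2, hS2, by linarith⟩
  · exact ⟨W1, hW1, hS1, by linarith⟩

/-- the volume -/
theorem disc_vol (E : Set ℝ) (hE : IsCompact E) :
    ∃ W : Finset ℝ, (∀ t ∈ W, t ∈ E) ∧ Sep W ∧ (volume E).toReal ≤ 2 * W.card := by
  obtain ⟨W, h1, h2, h3⟩ := disc E hE (fun _ => 1) continuous_const (fun _ => zero_le_one)
  refine ⟨W, h1, h2, ?_⟩
  rw [setIntegral_const, smul_eq_mul, mul_one] at h3
  simpa [Measure.real] using h3

/-- pigeonhole for the integral over a finite cover -/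
theorem pigeon {ι : Type*} (s : Finset ι) (E : Set ℝ) (hE : IsCompact E) (F : ι → Set ℝ)
    (hF : ∀ i ∈ s, IsCompact (F i)) (hsub : ∀ i ∈ s, F i ⊆ E) (hcov : ∀ t ∈ E, ∃ i ∈ s, t ∈ F i) (H : ℝ → ℝ) (hH : Continuous H)
    (hH0 : ∀ t, 0 ≤ H t) (X : ℝ) (hX : 0 < X) (hXE : X ≤ ∫ t in E, H t) :
    ∃ i ∈ s, X ≤ s.card * ∫ t in F i, H t := by
  classical
  by_contra hcon
  push Not at hcon
  have hle : ∫ t in E, H t ≤ ∑ i ∈ s, ∫ t in F i, H t := by
    have hintE : IntegrableOn H E := hH.continuousOn.integrableOn_compact hE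
    have h1 : ∀ i ∈ s, ∫ t in F i, H t = ∫ t in E, (F i).indicator H t := by
      intro i hi
      rw [setIntegral_indicator (hF i hi).measurableSet, inter_eq_self_of_subset_right (hsub i hi)]
    rw [Finset.sum_congr rfl h1, ← integral_finsetSum]
    · apply setIntegral_mono_on hintE _ hE.measurableSet
      · intro t ht
        obtain ⟨i, hi, hti⟩ := hcov t ht
        calc H t = (F i).indicator H t := by rw [indicator_of_mem hti]
          _ ≤ ∑ i ∈ s, (F i).indicator H t :=
            Finset.single_le_sum (f := fun i => (F i).indicator H t) (fun j _ => indicator_nonneg (fun t _ => hH0 t) t) hi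
      · apply integrable_finsetSum
        intro i hi
        exact hintE.indicator (hF i hi).measurableSet
    · intro i hi
      exact hintE.indicator (hF i hi).measurableSet
  have hne : s.Nonempty := by
    by_contra h
    rw [Finset.not_nonempty_iff_eq_empty] at h
    subst h
    simp at hle
    linarith
  have hc : (0 : ℝ) < s.card := by exact_mod_cast hne.card_pos
  have h2 : ∑ i ∈ s, ∫ t in F i, H t < ∑ i ∈ s, X / s.card := by
    apply Finset.sum_lt_sum_of_nonempty hne
    intro i hi
    rw [lt_div_iff₀ hc]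
    linarith [hcon i hi]
  rw [Finset.sum_const, nsmul_eq_mul, mul_div_cancel₀ _ hc.ne'] at h2
  linarith

/-- pigeonhole for two sets -/
theorem pigeon_two (E E1 E2 : Set ℝ) (hE : IsCompact E) (h1 : IsCompact E1) (h2 : IsCompact E2) (hs1 : E1 ⊆ E) (hs2 : E2 ⊆ E)
    (hcov : ∀ t ∈ E, t ∈ E1 ∨ t ∈ E2) (H : ℝ → ℝ) (hH : Continuous H) (hH0 : ∀ t, 0 ≤ H t) (X : ℝ) (hX : 0 < X)
    (hXE : X ≤ ∫ t in E, H t) : X ≤ 2 * ∫ t in E1, H t ∨ X ≤ 2 * ∫ t in E2, H t := by
  obtain ⟨i, _, hi⟩ := pigeon (Finset.univ : Finset Bool) E hE (fun b => if b then E1 else E2)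
    (by rintro (_ | _) _ <;> simpa) (by rintro (_ | _) _ <;> simpa)
    (by
      intro t ht
      rcases hcov t ht with h | h
      · exact ⟨true, Finset.mem_univ _, by simpa using h⟩
      · exact ⟨false, Finset.mem_univ _, by simpa using h⟩) H hH hH0 X hX hXE
  have hcard : ((Finset.univ : Finset Bool).card : ℝ) = 2 := by norm_num [Finset.card_univ]
  rw [hcard] at hi
  rcases i with _ | _
  · right; simpa using hi
  · left; simpa using hi

end Pool.Agent.Work.MP_a8fbd7_nt.OX.CELL
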