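import Mathlib
import Pool.Agent.Work.MP_56b8f5_nt.UC.Defs

/-!
MP_a8fbd7_nt, block OX, part CELL: mean square of the coefficients of a power of a Dirichlet polynomial.
Author: helper63.
-/

set_option autoImplicit false

open Finset

noncomputable section

namespace Pool.Agent.Work.MP_a8fbd7_nt.OX.CELL

open Pool.Agent.Work.MP_56b8f5_nt.UC (Dp)

/-- `Dk k = d_{k+1}`, the number of factorisations into `k+1` factors -/
def Dk : ℕ → ℕ → ℝ
  | 0, _ => 1
  | k + 1, n => ∑ d ∈ n.divisors, Dk k d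

theorem Dk_nonneg (k n : ℕ) : 0 ≤ Dk k n := by
  induction k generalizing n with
  | zero => exact zero_le_one
  | succ k ih =>
    show 0 ≤ ∑ d ∈ n.divisors, Dk k d
    exact sum_nonneg fun d _ => ih d

theorem sum_image_le' {α β : Type*} [DecidableEq β] (s : Finset α) (f : α → β) (g : β → ℝ) (hg : ∀ b, 0 ≤ g b) :
    ∑ b ∈ s.image f, g b ≤ ∑ a ∈ s, g (f a) := by
  rw [Finset.sum_comp g f]
  apply sum_le_sum
  intro b hb
  obtain ⟨a, ha, rfl⟩ := mem_image.mp hb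
  have h1 : 1 ≤ (s.filter (fun x => f x = f a)).card := by
    rw [Nat.one_le_iff_ne_zero, Finset.card_ne_zero]
    exact ⟨a, mem_filter.mpr ⟨ha, rfl⟩⟩
  rw [nsmul_eq_mul]
  have h2 : (1 : ℝ) ≤ (s.filter (fun x => f x = f a)).card := by exact_mod_cast h1
  have := hg (f a)
  nlinarith

theorem Dk_mul (k : ℕ) : ∀ a b : ℕ, a ≠ 0 → b ≠ 0 → Dk k (a * b) ≤ Dk k a * Dk k b := by
  induction k with
  | zero =>
    intro a b _ _
    show (1 : ℝ) ≤ 1 * 1
    norm_num
  | succ k ih =>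
    intro a b ha hb
    show ∑ d ∈ (a * b).divisors, Dk k d ≤ (∑ d ∈ a.divisors, Dk k d) * ∑ d ∈ b.divisors, Dk k d
    rw [sum_mul_sum, ← sum_product']
    have h1 : (a * b).divisors ⊆ (a.divisors ×ˢ b.divisors).image (fun p => p.1 * p.2) := by
      intro d hd
      obtain ⟨hd1, _⟩ := Nat.mem_divisors.mp hd
      obtain ⟨d1, d2, h1, h2, h3⟩ := exists_dvd_and_dvd_of_dvd_mul hd1
      exact mem_image.mpr ⟨(d1, d2), mem_product.mpr ⟨Nat.mem_divisors.mpr ⟨h1, ha⟩, Nat.mem_divisors.mpr ⟨h2, hb⟩⟩, h3.symm⟩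
    calc ∑ d ∈ (a * b).divisors, Dk k d
        ≤ ∑ d ∈ (a.divisors ×ˢ b.divisors).image (fun p => p.1 * p.2), Dk k d :=
          sum_le_sum_of_subset_of_nonneg h1 fun d _ _ => Dk_nonneg k d
      _ ≤ ∑ p ∈ a.divisors ×ˢ b.divisors, Dk k (p.1 * p.2) :=
          sum_image_le' _ _ _ (Dk_nonneg k)
      _ ≤ ∑ p ∈ a.divisors ×ˢ b.divisors, Dk k p.1 * Dk k p.2 := by
          apply sum_le_sum
          intro p hp
          obtain ⟨hp1, hp2⟩ := mem_product.mp hp
          exact ih p.1 p.2 (Nat.pos_of_mem_divisors hp1).ne' (Nat.pos_of_mem_divisors hp2).ne'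

theorem harm (M : ℕ) : ∑ n ∈ Icc 1 M, (1 : ℝ) / n ≤ 1 + Real.log M := by
  have := harmonic_le_one_add_log M
  rw [harmonic_eq_sum_Icc] at this
  push_cast at this
  simpa [one_div] using this

theorem div_sum_aux (g : ℕ → ℝ) (hg : ∀ n, 0 ≤ g n) (M : ℕ) (h : ℕ → ℝ) (hh : ∀ n, 0 ≤ h n) :
    ∑ n ∈ Icc 1 M, (∑ d ∈ n.divisors, g d) * h n ≤ ∑ d ∈ Icc 1 M, g d * ∑ e ∈ Icc 1 (M / d), h (d * e) := by
  have h1 : ∀ n ∈ Icc 1 M, (∑ d ∈ n.divisors, g d) * h n = ∑ d ∈ Icc 1 M, if d ∣ n then g d * h n else 0 := by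
    intro n hn
    rw [mem_Icc] at hn
    rw [← sum_filter, sum_mul]
    apply sum_congr _ (fun _ _ => rfl)
    ext d
    rw [Nat.mem_divisors, mem_filter, mem_Icc]
    constructor
    · rintro ⟨hd, hn0⟩
      exact ⟨⟨Nat.pos_of_dvd_of_pos hd (by omega), (Nat.le_of_dvd (by omega) hd).trans hn.2⟩, hd⟩
    · rintro ⟨_, hd⟩
      exact ⟨hd, by omega⟩
  rw [sum_congr rfl h1, sum_comm]
  apply sum_le_sum
  intro d hd
  rw [mem_Icc] at hd
  rw [← sum_filter, mul_sum]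
  have h2 : (Icc 1 M).filter (fun n => d ∣ n) ⊆ (Icc 1 (M / d)).image (fun e => d * e) := by
    intro n hn
    rw [mem_filter, mem_Icc] at hn
    obtain ⟨⟨hn1, hn2⟩, e, rfl⟩ := hn
    refine mem_image.mpr ⟨e, mem_Icc.mpr ⟨?_, ?_⟩, rfl⟩
    · exact Nat.pos_of_ne_zero (fun h => by subst h; omega)
    · rw [Nat.le_div_iff_mul_le (by omega)]
      linarith
  calc ∑ n ∈ (Icc 1 M).filter (fun n => d ∣ n), g d * h n
      ≤ ∑ n ∈ (Icc 1 (M / d)).image (fun e => d * e), g d * h n :=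
        sum_le_sum_of_subset_of_nonneg h2 fun n _ _ => mul_nonneg (hg d) (hh n)
    _ ≤ ∑ e ∈ Icc 1 (M / d), g d * h (d * e) :=
        sum_image_le' _ _ (fun n => g d * h n) fun n => mul_nonneg (hg d) (hh n)

/-- logarithmic mean -/
theorem Dk_log (k M : ℕ) : ∑ n ∈ Icc 1 M, Dk k n / n ≤ (1 + Real.log M) ^ (k + 1) := by
  induction k with
  | zero =>
    rw [zero_add, pow_one]
    exact harm M
  | succ k ih =>
    rcases Nat.eq_zero_or_pos M with h0 | hM
    · subst h0; simp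
    have hl : 0 ≤ 1 + Real.log M := by
      have := Real.log_natCast_nonneg M
      linarith
    have h1 := div_sum_aux (Dk k) (Dk_nonneg k) M (fun n => 1 / (n : ℝ)) (fun n => by positivity)
    calc ∑ n ∈ Icc 1 M, Dk (k + 1) n / n = ∑ n ∈ Icc 1 M, (∑ d ∈ n.divisors, Dk k d) * (1 / (n : ℝ)) := by
          apply sum_congr rfl
          intro n _
          rw [mul_one_div]; rfl
      _ ≤ ∑ d ∈ Icc 1 M, Dk k d * ∑ e ∈ Icc 1 (M / d), 1 / ((d * e : ℕ) : ℝ) := h1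
      _ ≤ ∑ d ∈ Icc 1 M, Dk k d / d * (1 + Real.log M) := by
          apply sum_le_sum
          intro d hd
          rw [mem_Icc] at hd
          have h2 : ∑ e ∈ Icc 1 (M / d), 1 / ((d * e : ℕ) : ℝ) = 1 / d * ∑ e ∈ Icc 1 (M / d), 1 / (e : ℝ) := by
            rw [mul_sum]
            apply sum_congr rfl
            intro e _
            push_cast
            rw [one_div_mul_one_div]
          have h3 : ∑ e ∈ Icc 1 (M / d), 1 / (e : ℝ) ≤ 1 + Real.log M := by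
            refine (sum_le_sum_of_subset_of_nonneg (Icc_subset_Icc_right (Nat.div_le_self M d)) ?_).trans (harm M)
            intro n _ _
            positivity
          rw [h2]
          have h4 := Dk_nonneg k d
          calc Dk k d * (1 / d * ∑ e ∈ Icc 1 (M / d), 1 / (e : ℝ))
              = Dk k d / d * ∑ e ∈ Icc 1 (M / d), 1 / (e : ℝ) := by ring
            _ ≤ _ := by gcongr
      _ = (∑ d ∈ Icc 1 M, Dk k d / d) * (1 + Real.log M) := by rw [sum_mul]
      _ ≤ (1 + Real.log M) ^ (k + 1) * (1 + Real.log M) := by gcongr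
      _ = (1 + Real.log M) ^ (k + 1 + 1) := by ring

/-- mean -/
theorem Dk_sum (k M : ℕ) : ∑ n ∈ Icc 1 M, Dk k n ≤ M * (1 + Real.log M) ^ k := by
  rcases k with _ | k
  · rw [pow_zero, mul_one]
    have : ∀ n ∈ Icc 1 M, Dk 0 n = 1 := fun n _ => rfl
    rw [sum_congr rfl this]
    simp
  have h1 := div_sum_aux (Dk k) (Dk_nonneg k) M (fun _ => 1) (fun n => zero_le_one)
  calc ∑ n ∈ Icc 1 M, Dk (k + 1) n = ∑ n ∈ Icc 1 M, (∑ d ∈ n.divisors, Dk k d) * 1 := by
        apply sum_congr rfl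
        intro n _
        rw [mul_one]; rfl
    _ ≤ ∑ d ∈ Icc 1 M, Dk k d * ∑ e ∈ Icc 1 (M / d), (1 : ℝ) := h1
    _ ≤ ∑ d ∈ Icc 1 M, M * (Dk k d / d) := by
        apply sum_le_sum
        intro d hd
        rw [mem_Icc] at hd
        have h2 : ∑ e ∈ Icc 1 (M / d), (1 : ℝ) ≤ M / d := by
          simp only [sum_const, Nat.card_Icc, Nat.add_sub_cancel, nsmul_eq_mul, mul_one]
          exact Nat.cast_div_le
        have h4 := Dk_nonneg k d
        calc Dk k d * ∑ e ∈ Icc 1 (M / d), (1 : ℝ) ≤ Dk k d * (M / d) := by gcongr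
          _ = M * (Dk k d / d) := by ring
    _ = M * ∑ d ∈ Icc 1 M, Dk k d / d := by rw [mul_sum]
    _ ≤ M * (1 + Real.log M) ^ (k + 1) := by
        have := Dk_log k M
        gcongr

/-- coefficients of a power -/
theorem pow_coef (a : ℕ → ℂ) (ha : ∀ n, ‖a n‖ ≤ 1) (M : ℕ) (lo : ℝ) (hlo : 0 < lo)
    (hs : ∀ n, a n ≠ 0 → lo ≤ n ∧ n ≤ M) (k : ℕ) :
    ∃ c : ℕ → ℂ, (∀ n, c n ≠ 0 → lo ^ (k + 1) ≤ n ∧ n ≤ M ^ (k + 1)) ∧ (∀ n, ‖c n‖ ≤ Dk k n) ∧
      (∀ t, Dp M a t ^ (k + 1) = Dp (M ^ (k + 1)) c t) ∧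
      ∀ h : ℕ → ℝ, (∀ n, 0 ≤ h n) → (∀ m n, m ≠ 0 → n ≠ 0 → h (m * n) ≤ h m * h n) →
        ∑ n ∈ Icc 1 (M ^ (k + 1)), ‖c n‖ * h n ≤ (∑ n ∈ Icc 1 M, h n) ^ (k + 1) := by
  induction k with
  | zero =>
    refine ⟨a, ?_, ha, ?_, ?_⟩
    · simpa using hs
    · intro t; simp
    · intro h h0 _
      simp only [zero_add, pow_one]
      apply sum_le_sum
      intro n _
      have := ha n
      have := h0 n
      nlinarith
  | succ k ih =>
    obtain ⟨c, hc1, hc2, hc3, hc4⟩ := ih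
    have ha0 : a 0 = 0 := by
      by_contra h
      have := (hs 0 h).1
      simp at this
      linarith
    have hc0 : c 0 = 0 := by
      by_contra h
      have := (hc1 0 h).1
      have h2 : 0 < lo ^ (k + 1) := by positivity
      simp at this
      linarith
    set c' : ℕ → ℂ := fun n => ∑ p ∈ n.divisorsAntidiagonal, a p.1 * c p.2 with hc'
    have hmaps : ∀ p ∈ Icc 1 M ×ˢ Icc 1 (M ^ (k + 1)), p.1 * p.2 ∈ Icc 1 (M ^ (k + 1 + 1)) := by
      intro p hp
      obtain ⟨h1, h2⟩ := mem_product.mp hp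
      rw [mem_Icc] at h1 h2 ⊢
      refine ⟨Nat.mul_pos h1.1 h2.1, ?_⟩
      rw [pow_succ' M (k + 1)]
      exact Nat.mul_le_mul h1.2 h2.2
    have hfib : ∀ n ∈ Icc 1 (M ^ (k + 1 + 1)), (Icc 1 M ×ˢ Icc 1 (M ^ (k + 1))).filter (fun p => p.1 * p.2 = n) ⊆
        n.divisorsAntidiagonal := by
      intro n hn p hp
      rw [mem_Icc] at hn
      obtain ⟨_, h2⟩ := mem_filter.mp hp
      exact Nat.mem_divisorsAntidiagonal.mpr ⟨h2, by omega⟩
    have hout : ∀ n, ∀ p ∈ n.divisorsAntidiagonal,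
        p ∉ (Icc 1 M ×ˢ Icc 1 (M ^ (k + 1))).filter (fun p => p.1 * p.2 = n) → a p.1 = 0 ∨ c p.2 = 0 := by
      intro n p hp hpn
      by_contra hcon
      push Not at hcon
      obtain ⟨h1, h2⟩ := hcon
      obtain ⟨hpm, hn0⟩ := Nat.mem_divisorsAntidiagonal.mp hp
      apply hpn
      refine mem_filter.mpr ⟨mem_product.mpr ⟨mem_Icc.mpr ⟨?_, (hs _ h1).2⟩, mem_Icc.mpr ⟨?_, (hc1 _ h2).2⟩⟩, hpm⟩
      · exact Nat.pos_of_ne_zero (fun h => by rw [h] at h1; exact h1 ha0)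
      · exact Nat.pos_of_ne_zero (fun h => by rw [h] at h2; exact h2 hc0)
    refine ⟨c', ?_, ?_, ?_, ?_⟩
    · intro n hn
      obtain ⟨p, hp, hpn⟩ := exists_ne_zero_of_sum_ne_zero hn
      obtain ⟨hpm, hn0⟩ := Nat.mem_divisorsAntidiagonal.mp hp
      obtain ⟨h1, h2⟩ := hs p.1 (left_ne_zero_of_mul hpn)
      obtain ⟨h3, h4⟩ := hc1 p.2 (right_ne_zero_of_mul hpn)
      rw [← hpm]
      constructor
      · push_cast
        rw [pow_succ' lo (k + 1)]
        gcongr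
      · rw [pow_succ' M (k + 1)]
        exact Nat.mul_le_mul h2 h4
    · intro n
      calc ‖c' n‖ ≤ ∑ p ∈ n.divisorsAntidiagonal, ‖a p.1 * c p.2‖ := norm_sum_le _ _
        _ ≤ ∑ p ∈ n.divisorsAntidiagonal, Dk k p.2 := by
            apply sum_le_sum
            intro p _
            rw [norm_mul]
            have h1 := ha p.1
            have h2 := hc2 p.2
            have h3 := norm_nonneg (c p.2)
            have h4 := norm_nonneg (a p.1)
            nlinarith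
        _ = ∑ d ∈ n.divisors, Dk k d := Nat.sum_divisorsAntidiagonal' (f := fun _ d => Dk k d)
    · intro t
      rw [pow_succ' (Dp M a t) (k + 1), hc3]
      unfold Dp
      rw [sum_mul_sum, ← sum_product', ← sum_fiberwise_of_maps_to hmaps]
      apply sum_congr rfl
      intro n hn
      have hrhs : c' n * (n : ℂ) ^ (-(t * Complex.I)) = ∑ p ∈ n.divisorsAntidiagonal,
          (a p.1 * (p.1 : ℂ) ^ (-(t * Complex.I)) * (c p.2 * (p.2 : ℂ) ^ (-(t * Complex.I)))) := by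
        rw [hc', sum_mul]
        refine sum_congr rfl fun p hp => ?_
        obtain ⟨hpm, _⟩ := Nat.mem_divisorsAntidiagonal.1 hp
        have h1 : (n : ℂ) ^ (-(t * Complex.I)) =
            (p.1 : ℂ) ^ (-(t * Complex.I)) * (p.2 : ℂ) ^ (-(t * Complex.I)) := by
          rw [← hpm, Nat.cast_mul, Complex.natCast_mul_natCast_cpow]
        rw [h1]
        ring
      rw [hrhs]
      refine sum_subset (hfib n hn) ?_
      intro p hp hpn
      rcases hout n p hp hpn with h | h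
      · rw [h]; ring
      · rw [h]; ring
    · intro h h0 hmul
      calc ∑ n ∈ Icc 1 (M ^ (k + 1 + 1)), ‖c' n‖ * h n
          ≤ ∑ n ∈ Icc 1 (M ^ (k + 1 + 1)), ∑ p ∈ (Icc 1 M ×ˢ Icc 1 (M ^ (k + 1))).filter (fun p => p.1 * p.2 = n),
              h p.1 * (‖c p.2‖ * h p.2) := by
            apply sum_le_sum
            intro n hn
            have h1 : ‖c' n‖ * h n ≤ ∑ p ∈ n.divisorsAntidiagonal, ‖a p.1 * c p.2‖ * h n := by
              rw [← sum_mul]
              exact mul_le_mul_of_nonneg_right (norm_sum_le _ _) (h0 n)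
            refine h1.trans ?_
            have h2 : ∑ p ∈ n.divisorsAntidiagonal, ‖a p.1 * c p.2‖ * h n =
                ∑ p ∈ (Icc 1 M ×ˢ Icc 1 (M ^ (k + 1))).filter (fun p => p.1 * p.2 = n), ‖a p.1 * c p.2‖ * h n := by
              symm
              refine sum_subset (hfib n hn) ?_
              intro p hp hpn
              rcases hout n p hp hpn with h | h
              · rw [h]; simp
              · rw [h]; simp
            rw [h2]
            apply sum_le_sum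
            intro p hp
            obtain ⟨hp1, hp2⟩ := mem_filter.mp hp
            obtain ⟨hp3, hp4⟩ := mem_product.mp hp1
            rw [mem_Icc] at hp3 hp4
            rw [norm_mul, ← hp2]
            have e1 := hmul p.1 p.2 (by omega) (by omega)
            have e2 := ha p.1
            have e3 := norm_nonneg (c p.2)
            have e4 := norm_nonneg (a p.1)
            have e5 := h0 p.1
            have e6 := h0 p.2
            calc ‖a p.1‖ * ‖c p.2‖ * h (p.1 * p.2) ≤ 1 * ‖c p.2‖ * (h p.1 * h p.2) := by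
                  have := h0 (p.1 * p.2)
                  gcongr
              _ = h p.1 * (‖c p.2‖ * h p.2) := by ring
        _ = ∑ p ∈ Icc 1 M ×ˢ Icc 1 (M ^ (k + 1)), h p.1 * (‖c p.2‖ * h p.2) :=
            sum_fiberwise_of_maps_to hmaps _
        _ = (∑ n ∈ Icc 1 M, h n) * ∑ n ∈ Icc 1 (M ^ (k + 1)), ‖c n‖ * h n := by
            rw [sum_mul_sum, ← sum_product']
        _ ≤ (∑ n ∈ Icc 1 M, h n) * (∑ n ∈ Icc 1 M, h n) ^ (k + 1) := by
            have : 0 ≤ ∑ n ∈ Icc 1 M, h n := sum_nonneg fun n _ => h0 n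
            have := hc4 h h0 hmul
            gcongr
        _ = (∑ n ∈ Icc 1 M, h n) ^ (k + 1 + 1) := by ring

/-- **mean square of the coefficients** -/
theorem pow_ms (a : ℕ → ℂ) (ha : ∀ n, ‖a n‖ ≤ 1) (M : ℕ) (lo : ℝ) (hlo : 0 < lo)
    (hs : ∀ n, a n ≠ 0 → lo ≤ n ∧ n ≤ M) (k : ℕ) :
    ∃ c : ℕ → ℂ, (∀ n, c n ≠ 0 → lo ^ (k + 1) ≤ n ∧ n ≤ M ^ (k + 1)) ∧
      (∀ t, Dp M a t ^ (k + 1) = Dp (M ^ (k + 1)) c t) ∧
      ∑ n ∈ Icc 1 (M ^ (k + 1)), ‖c n‖ ^ 2 ≤ ((M : ℝ) * (1 + Real.log M) ^ k) ^ (k + 1) := by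
  obtain ⟨c, hc1, hc2, hc3, hc4⟩ := pow_coef a ha M lo hlo hs k
  refine ⟨c, hc1, hc3, ?_⟩
  calc ∑ n ∈ Icc 1 (M ^ (k + 1)), ‖c n‖ ^ 2 ≤ ∑ n ∈ Icc 1 (M ^ (k + 1)), ‖c n‖ * Dk k n := by
        apply sum_le_sum
        intro n _
        rw [sq]
        exact mul_le_mul_of_nonneg_left (hc2 n) (norm_nonneg _)
    _ ≤ (∑ n ∈ Icc 1 M, Dk k n) ^ (k + 1) := hc4 (Dk k) (Dk_nonneg k) (Dk_mul k)
    _ ≤ _ := by
        have h1 := Dk_sum k M
        have h2 : 0 ≤ ∑ n ∈ Icc 1 M, Dk k n := sum_nonneg fun n _ => Dk_nonneg k n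
        gcongr

end Pool.Agent.Work.MP_a8fbd7_nt.OX.CELL
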