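import Pool.Agent.Work.MP_a8fbd7_nt.OX.CELL.I_CellB
import Pool.Agent.Work.MP_a8fbd7_nt.OX.CELL.I_LA
import Pool.Agent.Work.MP_a8fbd7_nt.OX.CELL.I_LB
import Pool.Agent.Work.MP_a8fbd7_nt.OX.CELL.I_NB
import Pool.Agent.Work.MP_a8fbd7_nt.OX.CELL.I_Nz
import Pool.Agent.Work.MP_a8fbd7_nt.OX.CELL.I_Pw
import Pool.Agent.Work.MP_a8fbd7_nt.OX.TAB.Tab

/-!
MP_a8fbd7_nt, block OX, part CELL: the two cell theorems from the large value inputs and `ZF.StHM`.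
-/

set_option autoImplicit false

namespace Pool.Agent.Work.MP_a8fbd7_nt.OX.CELL

open Pool.Agent.Work.MP_a8fbd7_nt.OX

theorem cellA (hPf : StPf) (hMv : StMv) (hHx : StHx) (hG : StG) (hJ : StJ) : StCellA :=
  iCellA hPf hMv hHx hG hJ (iLA TAB.tab)

theorem cellB (hPf : StPf) (hMv : StMv) (hHx : StHx) (hG : StG) (hJ : StJ)
    (hHM : Pool.Agent.Work.MP_a8fbd7_nt.ZF.StHM) : StCellB :=
  iCellB hPf hMv hHx hG hJ (iNB (iNz hHM) iPw) (iLB TAB.tab)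

end Pool.Agent.Work.MP_a8fbd7_nt.OX.CELL
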