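import Mathlib
import Pool.Agent.Work.MP_a8fbd7_nt.OX.Defs
import Pool.Agent.Work.MP_a8fbd7_nt.OX.CELL.Disc
import Pool.Agent.Work.MP_a8fbd7_nt.OX.CELL.CollE

/-!
MP_a8fbd7_nt, block OX, part CELL: choice of a class.
Author: helper63.
-/

set_option autoImplicit false

open MeasureTheory Set Filter Topology

noncomputable section

namespace Pool.Agent.Work.MP_a8fbd7_nt.OX.CELL

open Pool.Agent.Work.MP_56b8f5_nt.UC (Sep Dp)
open Pool.Agent.Work.MP_a8fbd7_nt.OX

/-- trivial bound -/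
theorem PB_le {a : ℕ → ℂ} {N : ℝ} (hN : 0 < N) (ha : IsBlk a N) (t : ℝ) : ‖PB a N t‖ ≤ 2 * N := by
  unfold PB Dp
  refine (norm_sum_le _ _).trans ?_
  calc ∑ n ∈ Finset.Icc 1 ⌊2 * N⌋₊, ‖a n * (n : ℂ) ^ (-(t * Complex.I))‖
      ≤ ∑ n ∈ Finset.Icc 1 ⌊2 * N⌋₊, (1 : ℝ) := by
        apply Finset.sum_le_sum
        intro n hn
        rw [Finset.mem_Icc] at hn
        have hn0 : (0 : ℝ) < n := by exact_mod_cast hn.1
        have h1 : ‖(n : ℂ) ^ (-((t : ℂ) * Complex.I))‖ = 1 := by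
          have := Complex.norm_cpow_eq_rpow_re_of_pos hn0 (-((t : ℂ) * Complex.I))
          simpa using this
        rw [norm_mul, h1, mul_one]
        exact ha.bd n
    _ = (⌊2 * N⌋₊ : ℝ) := by simp
    _ ≤ 2 * N := Nat.floor_le (by linarith)

/-- the level of one block at one point -/
theorem level (T b δ F : ℝ) (K : ℕ) (hF : F ≤ T ^ (b + δ)) :
    ∃ e : ℕ, e ≤ K ∧ (e < K → T ^ (b - e * δ) ≤ F) ∧ F ≤ T ^ (b - e * δ + δ) := by
  classical
  have hex : ∃ e : ℕ, e = K ∨ T ^ (b - e * δ) ≤ F := ⟨K, Or.inl rfl⟩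
  refine ⟨Nat.find hex, Nat.find_min' hex (Or.inl rfl), ?_, ?_⟩
  · intro h
    rcases Nat.find_spec hex with h1 | h1
    · omega
    · exact h1
  · rcases Nat.eq_zero_or_pos (Nat.find hex) with h0 | hpos
    · rw [h0]
      simpa using hF
    · have h1 := Nat.find_min hex (Nat.sub_lt hpos one_pos)
      push Not at h1
      have h2 : ((Nat.find hex - 1 : ℕ) : ℝ) = Nat.find hex - 1 := by
        rw [Nat.cast_sub hpos]; simp
      rw [h2] at h1
      have h3 : b - ((Nat.find hex : ℝ) - 1) * δ = b - Nat.find hex * δ + δ := by ring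
      rw [h3] at h1
      exact h1.2.le

/-- **PICK.** -/
theorem pick (s η : ℝ) (hs : 0 < s) (hs1 : s ≤ 1) (hη : 0 < η) : ∃ C : ℝ, 1 ≤ C ∧
    ∀ T, C ≤ T → ∀ (T' J θ : ℝ) (m : ℕ) (a : Fin m → ℕ → ℂ) (N b : Fin m → ℝ) (g : ℝ → ℝ) (E : Set ℝ),
      1 ≤ T' → T' ≤ T ^ (2 : ℝ) → (∀ i, IsBlk (a i) (N i)) → (∀ i, N i = T ^ b i) → (∀ i, η ≤ b i) → ∑ i, b i ≤ 3 →
      Continuous g → (∀ t, 0 ≤ g t) → (∀ t, g t ≤ J) → 0 < J → 0 ≤ θ → IsCompact E → E ⊆ Icc T' (2 * T') →
      J * T ^ θ ≤ ∫ t in E, g t * ∏ i, ‖PB (a i) (N i) t‖ →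
      ∃ (w : Fin m → ℝ) (E' : Set ℝ), IsCompact E' ∧ E' ⊆ E ∧ (∀ i, 0 ≤ w i) ∧
        (∀ t ∈ E', ∀ i, T ^ (b i - w i) ≤ ‖PB (a i) (N i) t‖ ∧ ‖PB (a i) (N i) t‖ ≤ T ^ (b i - w i + s)) ∧
        (∀ t ∈ E', ∏ i, ‖PB (a i) (N i) t‖ ≤ T ^ (∑ i, b i - ∑ i, w i + s)) ∧
        J * T ^ (θ - s) ≤ ∫ t in E', g t * ∏ i, ‖PB (a i) (N i) t‖ := by
  classical
  set δ : ℝ := min (s * η / 6) s with hδ
  have hδ0 : 0 < δ := lt_min (by positivity) hs
  have hδ1 : δ ≤ s * η / 6 := min_le_left _ _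
  have hδ2 : δ ≤ s := min_le_right _ _
  set K : ℕ := ⌈8 / δ⌉₊ with hK
  have hKδ : 8 ≤ K * δ := by
    have h1 : 8 / δ ≤ K := Nat.le_ceil _
    rwa [div_le_iff₀ hδ0] at h1
  set M : ℕ := ⌊3 / η⌋₊ with hM
  obtain ⟨C1, hC1, hthr1⟩ := thr (((K : ℝ) + 1) ^ M) (s / 2) (by positivity)
  obtain ⟨C2, hC2, hthr2⟩ := thr 2 δ hδ0
  refine ⟨max C1 C2, le_max_of_le_left (by linarith), ?_⟩
  intro T hT T' J θ m a N b g E hT'1 hT' ha hN hb hsum hg hg0 hgJ hJ hθ hE hEs hint
  have hTC1 : C1 ≤ T := (le_max_left _ _).trans hT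
  have hTC2 : C2 ≤ T := (le_max_right _ _).trans hT
  have hT2 : 2 ≤ T := hC1.trans hTC1
  have hT0 : 0 < T := by linarith
  have hT1 : 1 ≤ T := by linarith
  have hmη : m * η ≤ 3 := by
    calc m * η = ∑ _i : Fin m, η := by simp
      _ ≤ ∑ i, b i := Finset.sum_le_sum fun i _ => hb i
      _ ≤ 3 := hsum
  have hmM : m ≤ M := by
    rw [hM]
    apply Nat.le_floor
    rw [le_div_iff₀ hη]
    exact hmη
  have hmδ : m * δ ≤ s / 2 := by
    calc m * δ ≤ m * (s * η / 6) := by gcongr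
      _ = (m * η) * (s / 6) := by ring
      _ ≤ 3 * (s / 6) := by gcongr
      _ = s / 2 := by ring
  have hNpos : ∀ i, 0 < N i := fun i => by rw [hN i]; positivity
  set F : Fin m → ℝ → ℝ := fun i t => ‖PB (a i) (N i) t‖ with hF
  have hFc : ∀ i, Continuous (F i) := fun i => (PB_cont (a i) (N i)).norm
  have hF0 : ∀ i t, 0 ≤ F i t := fun i t => norm_nonneg _
  have hFtop : ∀ i t, F i t ≤ T ^ (b i + δ) := by
    intro i t
    have h1 := PB_le (hNpos i) (ha i) t
    have h2 := hthr2 T hTC2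
    calc F i t ≤ 2 * N i := h1
      _ ≤ T ^ δ * N i := by
          have := hNpos i
          gcongr
      _ = T ^ (b i + δ) := by rw [hN i, ← Real.rpow_add hT0, add_comm]
  set H : ℝ → ℝ := fun t => g t * ∏ i, F i t with hH
  have hHc : Continuous H := hg.mul (continuous_finsetProd _ fun i _ => hFc i)
  have hH0 : ∀ t, 0 ≤ H t := fun t => mul_nonneg (hg0 t) (Finset.prod_nonneg fun i _ => hF0 i t)
  -- the classes
  set L : (Fin m → Fin (K + 1)) → Set ℝ := fun e => E ∩ {t | ∀ i,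
    (((e i : ℕ) < K → T ^ (b i - (e i : ℕ) * δ) ≤ F i t) ∧ F i t ≤ T ^ (b i - (e i : ℕ) * δ + δ))} with hL
  have hLc : ∀ e ∈ (Finset.univ : Finset (Fin m → Fin (K + 1))), IsCompact (L e) := by
    intro e _
    apply hE.inter_right
    simp only [Set.ofPred_forall, Set.ofPred_and]
    apply isClosed_iInter
    intro i
    apply IsClosed.inter
    · apply isClosed_iInter
      intro _
      exact isClosed_le continuous_const (hFc i)
    · exact isClosed_le (hFc i) continuous_const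
  obtain ⟨e, _, he⟩ := pigeon (Finset.univ : Finset (Fin m → Fin (K + 1))) E hE L hLc
    (fun e _ => inter_subset_left) (by
      intro t ht
      have h1 : ∀ i, ∃ e : ℕ, e ≤ K ∧ (e < K → T ^ (b i - e * δ) ≤ F i t) ∧ F i t ≤ T ^ (b i - e * δ + δ) :=
        fun i => level T (b i) δ (F i t) K (hFtop i t)
      choose e he1 he2 using h1
      refine ⟨fun i => ⟨e i, Nat.lt_succ_of_le (he1 i)⟩, Finset.mem_univ _, ht, ?_⟩
      intro i
      exact he2 i) H hHc hH0 (J * T ^ θ) (by positivity) hint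
  have hcard : (((Finset.univ : Finset (Fin m → Fin (K + 1))).card : ℕ) : ℝ) ≤ T ^ (s / 2) := by
    refine le_trans ?_ (hthr1 T hTC1)
    rw [Finset.card_univ, Fintype.card_fun, Fintype.card_fin, Fintype.card_fin]
    push_cast
    exact pow_le_pow_right₀ (by have : (0 : ℝ) ≤ K := Nat.cast_nonneg K; linarith) hmM
  have hLint0 : 0 ≤ ∫ t in L e, H t := integral_nonneg fun t => hH0 t
  have hclass : J * T ^ (θ - s / 2) ≤ ∫ t in L e, H t := by
    have h1 : J * T ^ θ ≤ T ^ (s / 2) * ∫ t in L e, H t :=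
      he.trans (mul_le_mul_of_nonneg_right hcard hLint0)
    have h2 : J * T ^ θ = T ^ (s / 2) * (J * T ^ (θ - s / 2)) := by
      have : T ^ θ = T ^ (s / 2) * T ^ (θ - s / 2) := by rw [← Real.rpow_add hT0]; congr 1; ring
      rw [this]; ring
    rw [h2] at h1
    exact le_of_mul_le_mul_left h1 (by positivity)
  set w : Fin m → ℝ := fun i => ((e i : ℕ) : ℝ) * δ with hw
  have hw0 : ∀ i, 0 ≤ w i := fun i => by positivity
  have hLmem : ∀ t ∈ L e, t ∈ E ∧ ∀ i, (((e i : ℕ) < K → T ^ (b i - w i) ≤ F i t) ∧ F i t ≤ T ^ (b i - w i + δ)) :=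
    fun t ht => ht
  have hprod : ∀ t ∈ L e, ∏ i, F i t ≤ T ^ (∑ i, b i - ∑ i, w i + s / 2) := by
    intro t ht
    calc ∏ i, F i t ≤ ∏ i, T ^ (b i - w i + δ) :=
          Finset.prod_le_prod (fun i _ => hF0 i t) fun i _ => ((hLmem t ht).2 i).2
      _ = T ^ (∑ i, (b i - w i + δ)) := by rw [Real.rpow_sum_of_pos hT0]
      _ ≤ T ^ (∑ i, b i - ∑ i, w i + s / 2) := by
          apply Real.rpow_le_rpow_of_exponent_le hT1
          rw [Finset.sum_add_distrib, Finset.sum_sub_distrib]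
          simp only [Finset.sum_const, Finset.card_univ, Fintype.card_fin, nsmul_eq_mul]
          linarith
  have hnotK : ∀ i, (e i : ℕ) < K := by
    intro i
    by_contra hcon
    have hei : (e i : ℕ) = K := by
      have := (e i).2
      omega
    have hwi : 8 ≤ ∑ i, w i := by
      calc (8 : ℝ) ≤ w i := by rw [hw]; simp only; rw [hei]; exact hKδ
        _ ≤ ∑ i, w i := Finset.single_le_sum (fun j _ => hw0 j) (Finset.mem_univ i)
    have h1 : ∫ t in L e, H t ≤ J * T ^ (-2 : ℝ) := by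
      have hLe : IsCompact (L e) := hLc e (Finset.mem_univ _)
      have hvol : (volume (L e)).toReal ≤ T' := by
        have h2 : volume (L e) ≤ ENNReal.ofReal T' := by
          refine (measure_mono (inter_subset_left.trans hEs)).trans ?_
          rw [Real.volume_Icc]
          apply ENNReal.ofReal_le_ofReal
          linarith
        have := ENNReal.toReal_mono ENNReal.ofReal_ne_top h2
        rwa [ENNReal.toReal_ofReal (by linarith)] at this
      calc ∫ t in L e, H t ≤ ∫ _ in L e, J * T ^ (-4.5 : ℝ) := by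
            apply setIntegral_mono_on (hHc.continuousOn.integrableOn_compact hLe)
              (integrableOn_const hLe.measure_lt_top.ne) hLe.measurableSet
            intro t ht
            have h3 := hprod t ht
            have h4 : T ^ (∑ i, b i - ∑ i, w i + s / 2) ≤ T ^ (-4.5 : ℝ) := by
              apply Real.rpow_le_rpow_of_exponent_le hT1
              linarith
            exact mul_le_mul (hgJ t) (h3.trans h4) (Finset.prod_nonneg fun i _ => hF0 i t) hJ.le
        _ = (volume (L e)).toReal * (J * T ^ (-4.5 : ℝ)) := by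
            rw [setIntegral_const, smul_eq_mul]; rfl
        _ ≤ T ^ (2 : ℝ) * (J * T ^ (-4.5 : ℝ)) := by
            have := hvol.trans hT'
            gcongr
        _ = J * (T ^ (2 : ℝ) * T ^ (-4.5 : ℝ)) := by ring
        _ ≤ J * T ^ (-2 : ℝ) := by
            rw [← Real.rpow_add hT0]
            apply mul_le_mul_of_nonneg_left _ hJ.le
            apply Real.rpow_le_rpow_of_exponent_le hT1
            norm_num
    have h2 : J * T ^ (θ - s / 2) ≤ J * T ^ (-2 : ℝ) := hclass.trans h1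
    have h3 : T ^ (θ - s / 2) ≤ T ^ (-2 : ℝ) := le_of_mul_le_mul_left h2 hJ
    have h4 := (Real.rpow_le_rpow_left_iff (by linarith : (1 : ℝ) < T)).mp h3
    linarith
  refine ⟨w, L e, hLc e (Finset.mem_univ _), inter_subset_left, hw0, ?_, ?_, ?_⟩
  · intro t ht i
    refine ⟨((hLmem t ht).2 i).1 (hnotK i), ((hLmem t ht).2 i).2.trans ?_⟩
    apply Real.rpow_le_rpow_of_exponent_le hT1
    linarith
  · intro t ht
    refine (hprod t ht).trans ?_
    apply Real.rpow_le_rpow_of_exponent_le hT1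
    linarith
  · refine le_trans ?_ hclass
    apply mul_le_mul_of_nonneg_left _ hJ.le
    apply Real.rpow_le_rpow_of_exponent_le hT1
    linarith

end Pool.Agent.Work.MP_a8fbd7_nt.OX.CELL
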