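import Mathlib
import Pool.Agent.Work.MP_a8fbd7_nt.OX.CELL.Pick
import Pool.Agent.Work.MP_a8fbd7_nt.OX.CELL.Stmts

/-!
MP_a8fbd7_nt, block OX, part CELL: the data of a class (PICK + large values + collisions).
Author: helper63.
-/

set_option autoImplicit false

open MeasureTheory Set Filter Topology

noncomputable section

namespace Pool.Agent.Work.MP_a8fbd7_nt.OX.CELL

open Pool.Agent.Work.MP_56b8f5_nt.UC (Sep Dp)
open Pool.Agent.Work.MP_a8fbd7_nt.OX

/-- from `LVp` (interval of length `T^h`) to `LVx` -/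
theorem LVx_of_LVp {h s1 s b w τ : ℝ} {Q k : ℕ} (hh : h ≤ 1 + s1) (hh1 : 1 ≤ h) (hs : 2 * s1 ≤ s) (hs1 : 0 < s1)
    (H : LVp h (k * b) (k * w) τ s1 Q) : LVx b w τ s Q k := by
  refine ⟨?_, ?_, ?_, ?_⟩
  · have h1 := H.mv
    have h2 : max 0 (h - k * b) ≤ max 0 (1 - k * b) + s1 := by
      apply max_le
      · have := le_max_left 0 (1 - k * b); linarith
      · have := le_max_right 0 (1 - k * b); linarith
    linarith
  · have h1 := H.hx
    have h2 : max (2 * (k * w)) (h + 6 * (k * w) - 2 * (k * b)) ≤ max (2 * (k * w)) (1 + 6 * (k * w) - 2 * (k * b)) + s1 := by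
      apply max_le
      · have := le_max_left (2 * (k * w)) (1 + 6 * (k * w) - 2 * (k * b)); linarith
      · have := le_max_right (2 * (k * w)) (1 + 6 * (k * w) - 2 * (k * b)); linarith
    linarith
  · intro q t hq hqQ ht1 ht2
    have h1 := H.gm q t hq hqQ ht1 (by linarith)
    unfold GMh at h1
    unfold GMx
    have h2 : max 0 (h - t) ≤ max 0 (1 - t) + s1 := by
      apply max_le
      · have := le_max_left 0 (1 - t); linarith
      · have := le_max_right 0 (1 - t); linarith
    linarith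
  · intro t ht0 ht1 hkw
    have h1 := H.jj t ht0 (by linarith) (by linarith)
    unfold JTh at h1
    unfold JTx
    have h2 : max 0 (h - t) ≤ 1 - t + s1 := by
      apply max_le <;> linarith
    linarith

/-- the trivial block -/
theorem one_blk : IsBlk (fun n => if n = 1 then 1 else 0) 1 := by
  constructor
  · intro n
    show ‖(if n = 1 then 1 else 0 : ℂ)‖ ≤ 1
    split_ifs <;> simp
  · intro n hn
    have : n = 1 := by
      by_contra h
      exact hn (if_neg h)
    subst this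
    norm_num

theorem one_blk_val (t : ℝ) : PB (fun n => if n = 1 then 1 else 0) 1 t = 1 := by
  unfold PB Dp
  have : ⌊(2 : ℝ) * 1⌋₊ = 2 := by norm_num
  rw [this]
  rw [Finset.sum_eq_single 1]
  · simp
  · intro n _ hn
    simp [hn]
  · intro h
    simp at h

/-- **the data of a class** -/
theorem cls (hMv : StMv) (hHx : StHx) (hG : StG) (hJ : StJ) (hPf : StPf) (s η : ℝ) (Q : ℕ) (hs : 0 < s) (hs1 : s ≤ 1)
    (hη : 0 < η) : ∃ C : ℝ, 1 ≤ C ∧
    ∀ T, C ≤ T → ∀ (T' θ : ℝ) (m : ℕ) (a : Fin m → ℕ → ℂ) (N b : Fin m → ℝ) (S : Finset ℝ) (c : ℝ → ℂ) (E : Set ℝ),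
      1 ≤ T' → T' ≤ T ^ (1 + s / 128) → (∀ i, IsBlk (a i) (N i)) → (∀ i, N i = T ^ b i) → (∀ i, η ≤ b i) → ∑ i, b i ≤ 3 →
      LSep S T → (S.card : ℝ) ≤ T ^ (1 / 3 : ℝ) → 1 ≤ S.card → T ^ r0 ≤ S.card → (∀ x, ‖c x‖ ≤ 1) →
      0 ≤ θ → IsCompact E → E ⊆ Icc T' (2 * T') →
      S.card * T ^ θ ≤ ∫ t in E, ‖GS S c t‖ * ∏ i, ‖PB (a i) (N i) t‖ →
      ∃ (w : Fin m → ℝ) (τ W : ℝ), W = ∑ i, w i + θ - ∑ i, b i ∧ (∃ t ∈ E, ∀ i, T ^ (b i - w i) ≤ ‖PB (a i) (N i) t‖) ∧
        Cls b w τ W s Q := by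
  obtain ⟨C1, hC1, hpick⟩ := pick (s / 8) η (by positivity) (by linarith) hη
  obtain ⟨C2, hC2, hcoll⟩ := coll_E hPf (s / 8) η (by positivity) (by linarith) hη
  obtain ⟨C3, hC3, hcoll0⟩ := coll_E1 hPf (s / 8) (by positivity) (by linarith) 0
  obtain ⟨C4, hC4, hlv⟩ := lv_block hMv hHx hG hJ hPf (s / 8) η Q (by positivity) hη
  obtain ⟨C5, hC5, hthr⟩ := thr 2 (s / 8) (by positivity)
  refine ⟨max (max (max C1 C2) (max C3 C4)) C5, le_max_of_le_left (le_max_of_le_left (le_max_of_le_left hC1)), ?_⟩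
  intro T hT T' θ m a N b S c E hT'1 hT' ha hN hb hsum hS hS3 hS1 hSr hc hθ hE hEs hint
  have t1 : C1 ≤ T := (le_max_left _ _).trans ((le_max_left _ _).trans ((le_max_left _ _).trans hT))
  have t2 : C2 ≤ T := (le_max_right _ _).trans ((le_max_left _ _).trans ((le_max_left _ _).trans hT))
  have t3 : C3 ≤ T := (le_max_left _ _).trans ((le_max_right _ _).trans ((le_max_left _ _).trans hT))
  have t4 : C4 ≤ T := (le_max_right _ _).trans ((le_max_right _ _).trans ((le_max_left _ _).trans hT))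
  have t5 : C5 ≤ T := (le_max_right _ _).trans hT
  have hT2 : 2 ≤ T := hC5.trans t5
  have hT0 : 0 < T := by linarith
  have hT1 : 1 ≤ T := by linarith
  have h2T := hthr T t5
  have hJ0 : (0 : ℝ) < S.card := by exact_mod_cast hS1
  have hGc : Continuous (fun t => ‖GS S c t‖) := (GS_cont hS c).norm
  obtain ⟨w, E', hE', hE'E, hw0, hlev, hprod, hint'⟩ := hpick T t1 T' S.card θ m a N b (fun t => ‖GS S c t‖) E hT'1
    (hT'.trans (Real.rpow_le_rpow_of_exponent_le hT1 (by linarith))) ha hN hb hsum hGc (fun t => norm_nonneg _)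
    (fun t => GS_le hS hc t) hJ0 hθ hE hEs hint
  set W : ℝ := ∑ i, w i + θ - ∑ i, b i with hW
  set X : ℝ := W - s / 4 with hX
  -- the integral of `G`
  have hGint : S.card * T ^ X ≤ ∫ t in E', ‖GS S c t‖ := by
    have h1 : ∫ t in E', ‖GS S c t‖ * ∏ i, ‖PB (a i) (N i) t‖ ≤ T ^ (∑ i, b i - ∑ i, w i + s / 8) * ∫ t in E', ‖GS S c t‖ := by
      rw [← integral_const_mul]
      apply setIntegral_mono_on
      · apply Continuous.continuousOn _ |>.integrableOn_compact hE'
        exact hGc.mul (continuous_finsetProd _ fun i _ => (PB_cont (a i) (N i)).norm)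
      · exact (hGc.continuousOn.integrableOn_compact hE').const_mul _
      · exact hE'.measurableSet
      · intro t ht
        rw [mul_comm]
        exact mul_le_mul_of_nonneg_right (hprod t ht) (norm_nonneg _)
    have h2 : T ^ (∑ i, b i - ∑ i, w i + s / 8) * (S.card * T ^ X) ≤
        T ^ (∑ i, b i - ∑ i, w i + s / 8) * ∫ t in E', ‖GS S c t‖ := by
      refine le_trans (le_of_eq ?_) (hint'.trans h1)
      have : T ^ (θ - s / 8) = T ^ (∑ i, b i - ∑ i, w i + s / 8) * T ^ X := by
        rw [← Real.rpow_add hT0]; congr 1; rw [hX, hW]; ring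
      rw [this]; ring
    exact le_of_mul_le_mul_left h2 (by positivity)
  -- the volume
  obtain ⟨R, hR1, hR2, hR3⟩ := disc_vol E' hE'
  have hvol0 : ∫ t in E', ‖GS S c t‖ ≤ S.card * (volume E').toReal := by
    calc ∫ t in E', ‖GS S c t‖ ≤ ∫ _ in E', (S.card : ℝ) := by
          apply setIntegral_mono_on (hGc.continuousOn.integrableOn_compact hE')
            (integrableOn_const hE'.measure_lt_top.ne) hE'.measurableSet
          intro t _
          exact GS_le hS hc t
      _ = S.card * (volume E').toReal := by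
          rw [setIntegral_const, smul_eq_mul, mul_comm]; rfl
  have hXR : T ^ X ≤ 2 * R.card := by
    have h1 : S.card * T ^ X ≤ S.card * (2 * R.card) :=
      hGint.trans (hvol0.trans (mul_le_mul_of_nonneg_left hR3 hJ0.le))
    exact le_of_mul_le_mul_left h1 hJ0
  have hRpos : 0 < R.card := by
    have h1 : 0 < T ^ X := by positivity
    have h2 : (0 : ℝ) < R.card := by linarith
    exact_mod_cast h2
  have hRr : (0 : ℝ) < R.card := by exact_mod_cast hRpos
  set τ : ℝ := Real.logb T R.card with hτ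
  have hTτ : T ^ τ = R.card := Real.rpow_logb hT0 (by linarith) hRr
  have hWτ : X ≤ τ + s / 8 := by
    apply expo (K := 2) (T := T) (by linarith) _ h2T
    rw [hTτ]
    exact hXR
  have hRsub : ∀ t ∈ R, T' ≤ t ∧ t ≤ 2 * T' := fun t ht => hEs (hE'E (hR1 t ht))
  have hRT : (R.card : ℝ) ≤ 1 + 2 * (T' / 2) / 1 := by
    apply Pool.Agent.Work.MP_a8fbd7_nt.OX.card_le_of_sep R (fun t => t) 1 (3 / 2 * T') (T' / 2) one_pos (by linarith)
    · intro p hp q hq hpq
      exact hR2 p hp q hq hpq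
    · intro p hp
      have := hRsub p hp
      rw [abs_le]
      constructor <;> linarith [this.1, this.2]
  have hτ1 : τ ≤ 1 + s / 128 + s / 8 := by
    apply expo (K := 2) (T := T) (by linarith) _ h2T
    rw [hTτ]
    calc (R.card : ℝ) ≤ 1 + 2 * (T' / 2) / 1 := hRT
      _ ≤ 2 * T' := by linarith
      _ ≤ 2 * T ^ (1 + s / 128) := by linarith
  have hRne : R.Nonempty := Finset.card_pos.mp hRpos
  obtain ⟨t0, ht0⟩ := hRne
  refine ⟨w, τ, W, rfl, ⟨t0, hE'E (hR1 t0 ht0), fun i => (hlev t0 (hR1 t0 ht0) i).1⟩, ?_⟩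
  have hT'' : T' ≤ T ^ (1 + s / 8 / 16) := by
    refine hT'.trans (Real.rpow_le_rpow_of_exponent_le hT1 (by linarith))
  have hEvol : (volume E').toReal ≤ 2 * T ^ τ := by rw [hTτ]; exact hR3
  refine ⟨hw0, by linarith, by linarith, ?_, ?_, ?_⟩
  · -- trivial alternative
    have h1 := hcoll0 T t3 T' S c (fun n => if n = 1 then 1 else 0) 1 0 0 X τ E' hT'1 hT'' hS hS3 hS1 hc one_blk
      (by rw [Real.rpow_zero]) le_rfl (by simp) hE' (hE'E.trans hEs) (by
        intro t _
        rw [one_blk_val, sub_zero, Real.rpow_zero, norm_one]) hEvol hGint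
    rcases h1 with h1 | h1
    · left
      push_cast at h1
      linarith
    · right
      have := h1 r0 hSr
      push_cast at this
      linarith
  · intro i k hk hkb
    have h1 := hlv T t4 (a i) (N i) (b i) (w i) (1 + s / 128) T' τ R (hN i) (hb i) (ha i) (by positivity) (by linarith) hR2
      (by
        intro t ht
        have := hRsub t ht
        exact ⟨this.1, by linarith [this.2]⟩)
      (fun t ht => (hlev t (hR1 t ht) i).1) hTτ.le k hk hkb
    exact LVx_of_LVp (by linarith) (by linarith) (by linarith) (by positivity) h1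
  · intro i j hj
    have h1 := hcoll T t2 T' S c (a i) (N i) (b i) (w i) X τ E' hT'1 hT'' hS hS3 hS1 hc (ha i) (hN i) (hb i) hE'
      (hE'E.trans hEs) (fun t ht => (hlev t ht i).1) hEvol hGint j (by linarith)
    rcases h1 with h1 | h1
    · left
      linarith
    · right
      have := h1 r0 hSr
      linarith

end Pool.Agent.Work.MP_a8fbd7_nt.OX.CELL
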