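import Mathlib
import Pool.Agent.Work.MP_a8fbd7_nt.OX.CELL.Cls

/-!
MP_a8fbd7_nt, block OX: cell theorem A from the logic LA.
Author: helper63.
-/

set_option autoImplicit false

open MeasureTheory Set Filter Topology

noncomputable section

namespace Pool.Agent.Work.MP_a8fbd7_nt.OX.CELL

open Pool.Agent.Work.MP_56b8f5_nt.UC (Sep Dp)
open Pool.Agent.Work.MP_a8fbd7_nt.OX

/-- exponents of the block lengths -/
theorem blk_exp {T η x : ℝ} (hT : 1 < T) (h2 : 2 ≤ T ^ (η / 2)) {N : ℝ} (h1 : T ^ η / 2 ≤ N) (hx : N ≤ T ^ x) :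
    ∃ b : ℝ, N = T ^ b ∧ η / 2 ≤ b ∧ b ≤ x := by
  have hT0 : 0 < T := by linarith
  have hpos : 0 < T ^ η := by positivity
  have hN : 0 < N := by linarith
  refine ⟨Real.logb T N, (Real.rpow_logb hT0 (by linarith) hN).symm, ?_, ?_⟩
  · rw [Real.le_logb_iff_rpow_le hT hN]
    refine le_trans ?_ h1
    have h3 : T ^ η = T ^ (η / 2) * T ^ (η / 2) := by rw [← Real.rpow_add hT0]; congr 1; ring
    rw [h3]
    have : 0 < T ^ (η / 2) := by positivity
    nlinarith
  · rw [Real.logb_le_iff_le_rpow hT hN]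
    exact hx

theorem iCellA (hPf : StPf) (hMv : StMv) (hHx : StHx) (hG : StG) (hJ : StJ) (hLA : StLA) : StCellA := by
  intro κ2 hκ2 hκ2'
  obtain ⟨κ3, hκ3, hκ3', s0, hs0, Q, hmain⟩ := hLA κ2 hκ2 hκ2'
  set s : ℝ := min s0 1 with hs
  have hsp : 0 < s := lt_min hs0 one_pos
  have hs1 : s ≤ 1 := min_le_right _ _
  have hss : s ≤ s0 := min_le_left _ _
  refine ⟨κ3, min (κ3 / 10) (s / 128), hκ3, hκ3', lt_min (by positivity) (by positivity), min_le_left _ _, ?_⟩
  set ε : ℝ := min (κ3 / 10) (s / 128) with hε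
  have hε0 : 0 < ε := lt_min (by positivity) (by positivity)
  have hε1 : ε ≤ s / 128 := min_le_right _ _
  intro η hη hη'
  obtain ⟨C1, hC1, hcls⟩ := cls hMv hHx hG hJ hPf s (η / 2) Q hsp hs1 (by positivity)
  obtain ⟨C2, hC2, hthr⟩ := thr 2 (η / 2) (by positivity)
  refine ⟨max C1 C2, le_max_of_le_left hC1, ?_⟩
  intro T T' ν m a N S c hT hT'1 hT' ha hN hprod hν hS hS3 hc hint
  have t1 : C1 ≤ T := (le_max_left _ _).trans hT
  have t2 : C2 ≤ T := (le_max_right _ _).trans hT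
  have hT2 : 2 ≤ T := hC2.trans t2
  have hT0 : 0 < T := by linarith
  have hT1 : 1 ≤ T := by linarith
  by_contra hcon
  push Not at hcon
  have hb : ∀ i, ∃ b : ℝ, N i = T ^ b ∧ η / 2 ≤ b ∧ b ≤ 1 / 2 + κ3 :=
    fun i => blk_exp (by linarith) (hthr T t2) (hN i).1 (hN i).2
  choose b hb1 hb2 hb3 using hb
  have hsum : ∑ i, b i = ν := by
    have h1 : T ^ (∑ i, b i) = T ^ ν := by
      rw [Real.rpow_sum_of_pos hT0, ← hprod]
      exact Finset.prod_congr rfl fun i _ => (hb1 i).symm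
    exact (Real.rpow_right_inj hT0 (by linarith)).mp h1
  have hsum0 : 0 ≤ ν := by
    rw [← hsum]
    apply Finset.sum_nonneg
    intro i _
    have := hb2 i
    linarith
  have hr : T ^ r0 ≤ S.card := by
    have h1 : 1 * T ^ r0 ≤ max C1 C2 * T ^ r0 := by
      apply mul_le_mul_of_nonneg_right (le_max_of_le_left hC1) (by positivity)
    linarith
  have hcard : 1 ≤ S.card := by
    have h1 : 0 < T ^ r0 := by positivity
    have h2 : (0 : ℝ) < S.card := by linarith
    exact_mod_cast h2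
  have hint' : S.card * T ^ (1 + ν / 2 - ε) ≤ ∫ t in Icc T' (2 * T'), ‖GS S c t‖ * ∏ i, ‖PB (a i) (N i) t‖ := by
    rw [integral_Icc_eq_integral_Ioc, ← intervalIntegral.integral_of_le (by linarith)]
    exact hint
  obtain ⟨w, τ, W, hW, _, hCls⟩ := hcls T t1 T' (1 + ν / 2 - ε) m a N b S c (Icc T' (2 * T')) hT'1
    (hT'.trans (Real.rpow_le_rpow_of_exponent_le hT1 (by linarith))) ha hb1 hb2 (by linarith) hS hS3 hcard hr hc
    (by linarith) isCompact_Icc le_rfl hint'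
  refine hmain m b w τ W s hsp hss (fun i => ⟨by have := hb2 i; linarith, hb3 i⟩) (by linarith) ?_ hCls
  rw [hW, hsum]
  linarith

end Pool.Agent.Work.MP_a8fbd7_nt.OX.CELL
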